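import Pool.Agent.Lib.MP_4d246d_lc.Gain.Play

/-!
# From the adversary to an abstract objective function
-/

namespace Pool.Agent.MP4d246d.Gain

variable {n : ℕ}

/-- If `f` increases along all edges towards the target, and the targets separate, then the
improving directions are given by the target. -/
theorem improving_iff (G : Vertex n → Vertex n)
    (hsep : ∀ y z, y ≠ z → ∃ c, y c ≠ z c ∧ G y c = G z c) (f : Vertex n → ℝ)
    (hf : ∀ y c, G y c ≠ y c → f y < f (nb y c)) (y : Vertex n) (c : Fin n) :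
    f y < f (nb y c) ↔ G y c ≠ y c := by
  constructor
  · intro h hc
    obtain ⟨c', h1, h2⟩ := hsep y (nb y c) (nb_ne_self y c).symm
    have hcc : c' = c := by
      by_contra hcc
      exact h1 (nb_ne y hcc).symm
    subst hcc
    have h3 : G (nb y c') c' ≠ nb y c' c' := by rw [← h2, hc]; exact h1
    have h4 := hf (nb y c') c' h3
    rw [nb_nb] at h4
    exact lt_asymm h h4
  · exact hf y c

theorem abstractObjective_of_sep (G : Vertex n → Vertex n)
    (hsep : ∀ y z, y ≠ z → ∃ c, y c ≠ z c ∧ G y c = G z c) (f : Vertex n → ℝ)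
    (hinj : Function.Injective f) (hf : ∀ y c, G y c ≠ y c → f y < f (nb y c)) :
    AbstractObjective f := by
  classical
  refine ⟨hinj, ?_⟩
  intro D v w hw hv
  -- the best vertex of the face
  obtain ⟨z, hz, hmax⟩ := Finset.exists_max_image
    (Finset.univ.filter fun z : Vertex n => ∀ c ∉ D, z c = v c) f ⟨v, by simp⟩
  simp only [Finset.mem_filter, Finset.mem_univ, true_and] at hz hmax
  have hzv : z = v := by
    by_contra hne
    obtain ⟨c, h1, h2⟩ := hsep z v hne
    have hcD : c ∈ D := by
      by_contra hcD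
      exact h1 (hz c hcD)
    have h3 : G v c = v c := by
      by_contra h3
      exact lt_asymm (hv c hcD) (hf v c h3)
    have h4 : G z c ≠ z c := by rw [h2, h3]; exact fun h => h1 h.symm
    have h5 := hf z c h4
    have h6 := hmax (nb z c) (by
      intro b hb
      have : b ≠ c := fun h => hb (h ▸ hcD)
      rw [nb_ne z this]; exact hz b hb)
    linarith
  rw [← hzv]
  exact hmax w hw

theorem step_shown (ρ : PivotRule n) (f : Vertex n → ℝ) (τ : ℕ) (u : Vertex n)
    (S : Finset (Fin n)) (l : History n) (hS : S.Nonempty) :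
    step ρ f (shown τ u S :: l) =
      see f (nb u (ρ.pick (shown τ u S :: l))) :: shown τ u S :: l := by
  classical
  obtain ⟨c, hc⟩ := hS
  have h : ∃ c, 0 < (shown τ u S).2.2 c := ⟨c, shown_pos.mpr hc⟩
  exact if_pos h

/-- If everything shown is true for `f`, the history is the run. -/
theorem run_eq (ρ : PivotRule n) (v₀ : Vertex n) (f : Vertex n → ℝ) {l : History n}
    {p : Vertex n} (hl : Hist ρ v₀ l p) (hf : ∀ e ∈ l, see f e.1 = e) :
    run ρ f v₀ l.length = see f p :: l := by
  induction hl with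
  | nil => rfl
  | @cons l u S hl hS ih =>
    have h1 := ih (fun e he => hf e (List.mem_cons_of_mem _ he))
    have h2 : see f u = shown l.length u S := hf _ List.mem_cons_self
    rw [List.length_cons, run, h1, h2, step_shown _ _ _ _ _ _ hS]

theorem run_length_le (ρ : PivotRule n) (v₀ : Vertex n) (f : Vertex n → ℝ) (t : ℕ) :
    (run ρ f v₀ (t + 1)).length ≤ (run ρ f v₀ t).length + 1 := by
  rw [run]
  cases hr : run ρ f v₀ t with
  | nil => simp [step]
  | cons e l =>
    obtain ⟨v, x, γ⟩ := e
    simp only [step]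
    split_ifs <;> simp

theorem run_length_le' (ρ : PivotRule n) (v₀ : Vertex n) (f : Vertex n → ℝ) (t k : ℕ) :
    (run ρ f v₀ (t + k)).length ≤ (run ρ f v₀ t).length + k := by
  induction k with
  | zero => simp
  | succ k ih =>
    have := run_length_le ρ v₀ f (t + k)
    rw [← add_assoc]; omega

theorem run_length_le_succ (ρ : PivotRule n) (v₀ : Vertex n) (f : Vertex n → ℝ) (t : ℕ) :
    (run ρ f v₀ t).length ≤ t + 1 := by
  have := run_length_le' ρ v₀ f 0 t
  have h0 : (run ρ f v₀ 0).length = 1 := rfl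
  rw [zero_add, h0] at this
  omega

/-- A potential can be replaced by one with distinct values that takes the values `f₀ y + ε(y)` at
the vertices of `R`, if `f₀` is integral on `R`. -/
theorem exists_values (G : Vertex n → Vertex n) (f₀ : Vertex n → ℝ)
    (hf₀ : ∀ y c, G y c ≠ y c → f₀ y < f₀ (nb y c)) (R : Set (Vertex n))
    (hR : ∀ y ∈ R, ∃ τ : ℤ, f₀ y = τ) :
    ∃ f : Vertex n → ℝ, Function.Injective f ∧ (∀ y c, G y c ≠ y c → f y < f (nb y c)) ∧
      ∀ y ∈ R, f y = f₀ y + eps y := by
  classical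
  let idx : Vertex n → ℕ := fun y => (Fintype.equivFin (Vertex n) y : ℕ)
  have hidxinj : ∀ y z, idx y = idx z → y = z := by
    intro y z h
    exact (Fintype.equivFin (Vertex n)).injective (Fin.ext h)
  let prec : Vertex n → Vertex n → Prop := fun w y => f₀ w < f₀ y ∨ (f₀ w = f₀ y ∧ idx w < idx y)
  let rank : Vertex n → ℕ := fun y => (Finset.univ.filter fun w => prec w y).card
  have hrank : ∀ y z, prec y z → rank y < rank z := by
    intro y z hyz
    apply Finset.card_lt_card
    rw [Finset.ssubset_iff_of_subset]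
    · refine ⟨y, by simpa using hyz, ?_⟩
      simp only [Finset.mem_filter, Finset.mem_univ, true_and]
      rintro (h | ⟨-, h⟩)
      · exact lt_irrefl _ h
      · exact lt_irrefl _ h
    · intro w hw
      simp only [Finset.mem_filter, Finset.mem_univ, true_and] at hw ⊢
      rcases hw with h | ⟨h, h'⟩
      · rcases hyz with g | ⟨g, g'⟩
        · exact Or.inl (h.trans g)
        · exact Or.inl (g ▸ h)
      · rcases hyz with g | ⟨g, g'⟩
        · exact Or.inl (h ▸ g)
        · exact Or.inr ⟨h.trans g, h'.trans g'⟩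
  have hrankinj : ∀ y z, rank y = rank z → y = z := by
    intro y z h
    by_contra hne
    rcases lt_trichotomy (f₀ y) (f₀ z) with g | g | g
    · have := hrank y z (Or.inl g); omega
    · rcases lt_trichotomy (idx y) (idx z) with g' | g' | g'
      · have := hrank y z (Or.inr ⟨g, g'⟩); omega
      · exact hne (hidxinj y z g')
      · have := hrank z y (Or.inr ⟨g.symm, g'⟩); omega
    · have := hrank z y (Or.inl g); omega
  set N : ℝ := (Fintype.card (Vertex n) : ℝ) with hN
  have hNpos : 0 < N := card_vertex_pos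
  have hrankN : ∀ y, (rank y : ℝ) ≤ N := by
    intro y
    have : rank y ≤ Fintype.card (Vertex n) := Finset.card_le_univ _
    rw [hN]
    exact Nat.cast_le.mpr this
  let small : Vertex n → ℝ := fun y => 1 / 2 + ((rank y : ℝ) + 1) / (2 * (N + 2))
  have hs0 : ∀ y, 1 / 2 < small y := by
    intro y
    have : 0 < ((rank y : ℝ) + 1) / (2 * (N + 2)) := by positivity
    simp only [small]; linarith
  have hs1 : ∀ y, small y < 1 := by
    intro y
    have : ((rank y : ℝ) + 1) / (2 * (N + 2)) < 1 / 2 := by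
      rw [div_lt_div_iff₀ (by positivity) (by norm_num)]
      have := hrankN y
      linarith
    simp only [small]; linarith
  have hsmono : ∀ y z, rank y < rank z → small y < small z := by
    intro y z h
    have h1 : (rank y : ℝ) < rank z := by exact_mod_cast h
    have : ((rank y : ℝ) + 1) / (2 * (N + 2)) < ((rank z : ℝ) + 1) / (2 * (N + 2)) :=
      div_lt_div_of_pos_right (by linarith) (by positivity)
    simp only [small]; linarith
  let f : Vertex n → ℝ := fun y => if y ∈ R then f₀ y + eps y else (⌊f₀ y⌋ : ℝ) + small y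
  have hfR : ∀ y ∈ R, f y = f₀ y + eps y := fun y hy => by simp only [f]; rw [if_pos hy]
  have hfN : ∀ y, y ∉ R → f y = (⌊f₀ y⌋ : ℝ) + small y := fun y hy => by
    simp only [f]; rw [if_neg hy]
  -- integral part and rest
  have hfl : ∀ y, ∃ m : ℤ, ∃ s : ℝ, f y = m + s ∧ 0 ≤ s ∧ s < 1 ∧ m = ⌊f₀ y⌋ := by
    intro y
    by_cases hy : y ∈ R
    · obtain ⟨τ, hτ⟩ := hR y hy
      refine ⟨τ, eps y, by rw [hfR y hy, hτ], eps_nonneg y, ?_, ?_⟩
      · have := eps_lt y; linarith
      · rw [hτ, Int.floor_intCast]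
    · refine ⟨⌊f₀ y⌋, small y, hfN y hy, ?_, hs1 y, rfl⟩
      have := hs0 y; linarith
  refine ⟨f, ?_, ?_, hfR⟩
  · intro y z hyz
    obtain ⟨m, s, h1, h2, h3, h4⟩ := hfl y
    obtain ⟨m', s', h1', h2', h3', h4'⟩ := hfl z
    have hm : m = m' := by
      rw [h1, h1'] at hyz
      have g1 : (m : ℝ) < m' + 1 := by linarith
      have g2 : (m' : ℝ) < m + 1 := by linarith
      have g3 : m < m' + 1 := by exact_mod_cast g1
      have g4 : m' < m + 1 := by exact_mod_cast g2
      omega
    have hfloor : ⌊f₀ y⌋ = ⌊f₀ z⌋ := by rw [← h4, ← h4', hm]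
    by_cases hy : y ∈ R
    · obtain ⟨τ, hτ⟩ := hR y hy
      rw [hτ, Int.floor_intCast] at hfloor
      by_cases hz : z ∈ R
      · obtain ⟨τ', hτ'⟩ := hR z hz
        rw [hτ', Int.floor_intCast] at hfloor
        rw [hfR y hy, hfR z hz, hτ, hτ', hfloor] at hyz
        exact eps_inj (by linarith)
      · rw [hfR y hy, hfN z hz, hτ, ← hfloor] at hyz
        have g1 := eps_lt y
        have g2 := hs0 z
        linarith
    · by_cases hz : z ∈ R
      · obtain ⟨τ', hτ'⟩ := hR z hz
        rw [hτ', Int.floor_intCast] at hfloor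
        rw [hfN y hy, hfR z hz, hτ', hfloor] at hyz
        have g1 := eps_lt z
        have g2 := hs0 y
        linarith
      · rw [hfN y hy, hfN z hz, hfloor] at hyz
        apply hrankinj
        rcases lt_trichotomy (rank y) (rank z) with g | g | g
        · have := hsmono y z g; linarith
        · exact g
        · have := hsmono z y g; linarith
  · intro y c hc
    have hlt := hf₀ y c hc
    set z := nb y c with hz
    by_cases hzR : z ∈ R
    · obtain ⟨τ', hτ'⟩ := hR z hzR
      obtain ⟨m, s, h1, h2, h3, h4⟩ := hfl y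
      have g1 : m < τ' := by
        rw [h4, Int.floor_lt, ← hτ']; exact hlt
      have g2 : ((m : ℤ) : ℝ) + 1 ≤ τ' := by exact_mod_cast g1
      rw [h1, hfR z hzR, hτ']
      have := eps_nonneg z
      linarith
    · rw [hfN z hzR]
      have hfloor : ⌊f₀ y⌋ ≤ ⌊f₀ z⌋ := Int.floor_le_floor hlt.le
      have hfloor' : ((⌊f₀ y⌋ : ℤ) : ℝ) ≤ (⌊f₀ z⌋ : ℤ) := by exact_mod_cast hfloor
      by_cases hyR : y ∈ R
      · obtain ⟨τ, hτ⟩ := hR y hyR
        rw [hτ, Int.floor_intCast] at hfloor'
        rw [hfR y hyR, hτ]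
        have g1 := eps_lt y
        have g2 := hs0 z
        linarith
      · rw [hfN y hyR]
        have := hsmono y z (hrank y z (Or.inl hlt))
        linarith

/-- There is an orientation of the whole cube with a potential that explains a long history. -/
theorem exists_structure (ρ : PivotRule n) (v₀ : Vertex n) (h : ℕ) (hh : 1 ≤ h)
    (hn : 396 * h ^ 3 ≤ n) :
    ∃ (l : History n) (p : Vertex n) (G : Vertex n → Vertex n) (f₀ : Vertex n → ℝ),
      Hist ρ v₀ l p ∧ 2 ^ h ≤ l.length + 1 ∧
      (∀ e ∈ l, ∃ (τ : ℕ) (u : Vertex n) (S : Finset (Fin n)), e = shown τ u S ∧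
        (∀ c, c ∈ S ↔ G u c ≠ u c) ∧ f₀ u = τ ∧ ∀ c ∈ S, f₀ (nb u c) = τ + 1) ∧
      (∀ y z, y ≠ z → ∃ c, y c ≠ z c ∧ G y c = G z c) ∧
      (∀ y c, G y c ≠ y c → f₀ y < f₀ (nb y c)) := by
  classical
  set u := h * (66 * h) with hu
  have hsize : 6 * h * u = 396 * h ^ 3 := by rw [hu]; ring
  obtain ⟨E, -, hE⟩ := Finset.exists_subset_card_eq (s := (Finset.univ : Finset (Fin n)))
    (n := n - 6 * h * u) (by simp)
  have hE' : Eᶜ.card = 6 * h * u := by
    rw [Finset.card_compl, Fintype.card_fin, hE]; omega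
  obtain ⟨new, p', A', 𝒱, 𝒦, 𝓛, P⟩ := play ρ v₀ E h u hh hu hE' h [] v₀ E Hist.nil subset_rfl
    (by rw [hu]; simp)
  set T' : ℝ := (new.length : ℝ) + (([] : History n).length : ℕ) with hT'
  -- the last part
  obtain ⟨G', f', hG', hleaf⟩ := leaf_good A' p' T' ∅ v₀ (by simp) (by simp)
  obtain ⟨G₁, f₁, hG₁, hag, hmark, -, -⟩ := P.seg.ext ∅ v₀ (by simp) (by simp) G' f'
    (by rw [Finset.image_empty]; exact hG')
  have hp' : f₁ p' = T' := by
    have h1 := (hag p' ⟨fun _ _ => rfl, by simp⟩).2
    rw [h1, (hleaf p' (fun _ _ => rfl) (by simp)).2, dist_self]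
    simp
  -- the projection
  let π : Vertex n → Vertex n := fun y c => if c ∈ E then v₀ c else y c
  have hπE : ∀ y, ∀ c ∈ E, π y c = v₀ c := fun y c hc => by simp only [π]; rw [if_pos hc]
  have hπN : ∀ y, ∀ c, c ∉ E → π y c = y c := fun y c hc => by simp only [π]; rw [if_neg hc]
  have hdom : ∀ y, (∀ c ∈ E, y c = v₀ c) → Dom E v₀ ∅ v₀ y := fun y hy => ⟨hy, by simp⟩
  have hπid : ∀ y, (∀ c ∈ E, y c = v₀ c) → π y = y := by
    intro y hy
    funext c
    by_cases hc : c ∈ E
    · rw [hπE y c hc, hy c hc]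
    · exact hπN y c hc
  let cnt : Vertex n → ℕ := fun y => (E.filter fun c => y c ≠ v₀ c).card
  let G : Vertex n → Vertex n := fun y => G₁ (π y)
  let f₀ : Vertex n → ℝ := fun y => f₁ (π y) - cnt y
  have hGE : ∀ y, ∀ c ∈ E, G y c = v₀ c := fun y c hc => hG₁.closed (π y) (hdom _ (hπE y)) c hc
  have hval : ∀ y, (∀ c ∈ E, y c = v₀ c) → f₀ y = f₁ y := by
    intro y hy
    have h1 : cnt y = 0 := by
      simp only [cnt]
      rw [Finset.card_eq_zero, Finset.filter_eq_empty_iff]
      intro c hc h
      exact h (hy c hc)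
    simp only [f₀]
    rw [hπid y hy, h1]; simp
  refine ⟨new, p', G, f₀, by simpa using P.hist, P.len, ?_, ?_, ?_⟩
  · intro e he
    obtain ⟨τ, v, S, h1, ⟨g, h2, h3⟩, h4⟩ := P.expl e he
    obtain ⟨hd, hg, hx⟩ := hmark _ h2
    refine ⟨τ, v, S, h1, ?_, ?_, ?_⟩
    · intro c
      have : G v = g := by
        show G₁ (π v) = g
        rw [hπid v hd.1]; exact hg
      rw [this, h3 c]
    · rw [hval v hd.1]; exact hx
    · intro c hc
      rcases h4 c hc with ⟨g', h5⟩ | ⟨h5, h6⟩
      · obtain ⟨hd', -, hx'⟩ := hmark _ h5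
        rw [hval _ hd'.1]; exact hx'
      · rw [h5]
        rw [hval p' (fun b hb => P.seg.eq b hb), hp']
        exact h6
  · intro y z hne
    by_cases hπ : π y = π z
    · have hex : ∃ c, y c ≠ z c := Function.ne_iff.mp hne
      obtain ⟨c, hc⟩ := hex
      refine ⟨c, hc, ?_⟩
      show G₁ (π y) c = G₁ (π z) c
      rw [hπ]
    · obtain ⟨c, h1, h2⟩ := hG₁.sep (π y) (π z) (hdom _ (hπE y)) (hdom _ (hπE z)) hπ
      have hcE : c ∉ E := by
        intro hcE
        exact h1 (by rw [hπE y c hcE, hπE z c hcE])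
      exact ⟨c, by rw [← hπN y c hcE, ← hπN z c hcE]; exact h1, h2⟩
  · intro y c hc
    by_cases hcE : c ∈ E
    · have hyc : y c ≠ v₀ c := by
        rw [hGE y c hcE] at hc; exact hc.symm
      have h1 : π (nb y c) = π y := by
        funext b
        by_cases hb : b ∈ E
        · rw [hπE _ b hb, hπE _ b hb]
        · have hbc : b ≠ c := fun h => hb (h ▸ hcE)
          rw [hπN _ b hb, hπN _ b hb, nb_ne _ hbc]
      have h2 : cnt (nb y c) < cnt y := by
        apply Finset.card_lt_card
        rw [Finset.ssubset_iff_of_subset]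
        · refine ⟨c, by simp [hcE, hyc], ?_⟩
          simp only [Finset.mem_filter, not_and, not_not]
          intro _
          rw [nb_self]; exact bool_flip hyc
        · intro b hb
          simp only [Finset.mem_filter] at hb ⊢
          refine ⟨hb.1, ?_⟩
          by_cases hbc : b = c
          · subst hbc; exact hyc
          · rw [nb_ne _ hbc] at hb; exact hb.2
      have h3 : (cnt (nb y c) : ℝ) < cnt y := by exact_mod_cast h2
      simp only [f₀]
      rw [h1]; linarith
    · have h1 : π (nb y c) = nb (π y) c := by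
        funext b
        by_cases hbc : b = c
        · subst hbc
          rw [hπN _ b hcE, nb_self, nb_self, hπN _ b hcE]
        · rw [nb_ne _ hbc]
          by_cases hb : b ∈ E
          · rw [hπE _ b hb, hπE _ b hb]
          · rw [hπN _ b hb, hπN _ b hb, nb_ne _ hbc]
      have h2 : cnt (nb y c) = cnt y := by
        simp only [cnt]
        congr 1
        apply Finset.filter_congr
        intro b hb
        have hbc : b ≠ c := fun h => hcE (h ▸ hb)
        rw [nb_ne _ hbc]
      have h3 : G₁ (π y) c ≠ π y c := by rw [hπN y c hcE]; exact hc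
      have h4 := hG₁.mono (π y) c (hdom _ (hπE y))
        (by rw [← h1]; exact hdom _ (hπE _)) h3
      simp only [f₀]
      rw [h1, h2]; linarith

/-- The main theorem. -/
theorem main (h n : ℕ) (hn : 396 * h ^ 3 ≤ n) (ρ : PivotRule n) (v₀ : Vertex n) :
    ∃ f : Vertex n → ℝ, AbstractObjective f ∧ (run ρ f v₀ (2 ^ h - 1)).length = 2 ^ h := by
  classical
  rcases Nat.eq_zero_or_pos h with rfl | hh
  · -- no pivot is claimed
    let G : Vertex n → Vertex n := fun _ _ => true
    let φ : Vertex n → ℝ := fun y => ((Finset.univ.filter fun c => y c = true).card : ℝ)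
    have hsep : ∀ y z : Vertex n, y ≠ z → ∃ c, y c ≠ z c ∧ G y c = G z c := by
      intro y z hne
      obtain ⟨c, hc⟩ := Function.ne_iff.mp hne
      exact ⟨c, hc, rfl⟩
    have hφ : ∀ (y : Vertex n) c, G y c ≠ y c → φ y < φ (nb y c) := by
      intro y c hc
      have := card_target (fun _ => true) y c hc
      simp only [φ]
      rw [this]; push_cast; linarith
    obtain ⟨f, h1, h2, -⟩ := exists_values G φ hφ ∅ (by simp)
    exact ⟨f, abstractObjective_of_sep _ hsep f h1 h2, rfl⟩
  · obtain ⟨l, p, G, f₀, hl, hlen, hex, hsep, hf₀⟩ := exists_structure ρ v₀ h hh hn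
    obtain ⟨f, h1, h2, h3⟩ := exists_values G f₀ hf₀
      {y | ∃ e ∈ l, e.1 = y ∨ ∃ c, 0 < e.2.2 c ∧ nb e.1 c = y} (by
        rintro y ⟨e, he, h⟩
        obtain ⟨τ, u, S, rfl, -, h4, h5⟩ := hex e he
        rcases h with h | ⟨c, hc, h⟩
        · have hy : u = y := h
          exact ⟨τ, by rw [← hy, h4]; simp⟩
        · have hy : nb u c = y := h
          exact ⟨τ + 1, by rw [← hy, h5 c (shown_pos.mp hc)]; push_cast; ring⟩)
    refine ⟨f, abstractObjective_of_sep G hsep f h1 h2, ?_⟩
    have hsee : ∀ e ∈ l, see f e.1 = e := by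
      intro e he
      obtain ⟨τ, u, S, rfl, h4, h5, h6⟩ := hex e he
      have h7 : f u = τ + eps u := by rw [h3 u ⟨_, he, Or.inl rfl⟩, h5]
      have h8 : gain f u = fun c => if c ∈ S then 1 + eps (nb u c) - eps u else 0 := by
        funext c
        by_cases hc : c ∈ S
        · have h9 : f (nb u c) = τ + 1 + eps (nb u c) := by
            rw [h3 (nb u c) ⟨_, he, Or.inr ⟨c, shown_pos.mpr hc, rfl⟩⟩, h6 c hc]
          have h10 := eps_nonneg (nb u c)
          have h11 := eps_lt u
          simp only [gain, hc, if_true]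
          rw [h9, h7, max_eq_left (by linarith)]
          ring
        · have h9 : ¬ f u < f (nb u c) := by
            rw [improving_iff G hsep f h2 u c]
            exact fun h => hc ((h4 c).mpr h)
          simp only [gain, hc, if_false]
          rw [max_eq_right (by linarith [not_lt.mp h9])]
      show ((u, f u, gain f u) : Entry n) = (u, (τ : ℝ) + eps u, _)
      rw [h7, h8]
    have hrun := run_eq ρ v₀ f hl hsee
    have h5 : (run ρ f v₀ l.length).length = l.length + 1 := by rw [hrun]; simp
    have hpos : 0 < 2 ^ h := Nat.pow_pos (by norm_num)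
    have h6 := run_length_le' ρ v₀ f (2 ^ h - 1) (l.length - (2 ^ h - 1))
    have h7 : 2 ^ h - 1 + (l.length - (2 ^ h - 1)) = l.length := by omega
    rw [h7, h5] at h6
    have h8 := run_length_le_succ ρ v₀ f (2 ^ h - 1)
    omega

end Pool.Agent.MP4d246d.Gain
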