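import Pool.Agent.Lib.MP_4d246d_lc.Gain.Defs

/-!
# Orientations with potentials on a part of the cube

`G y` is the target at `y`: the coordinate `c` is improving at `y` iff `G y c ≠ y c`. The potential
`f` increases along improving edges.
-/

namespace Pool.Agent.MP4d246d.Gain

variable {n : ℕ}

theorem nb_self (y : Vertex n) (c : Fin n) : nb y c c = !y c := by simp [nb]

theorem nb_ne (y : Vertex n) {c b : Fin n} (h : b ≠ c) : nb y c b = y b := by
  simp [nb, Function.update_of_ne h]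

theorem nb_nb (y : Vertex n) (c : Fin n) : nb (nb y c) c = y := by
  funext b
  by_cases hb : b = c
  · subst hb; rw [nb_self, nb_self, Bool.not_not]
  · rw [nb_ne _ hb, nb_ne _ hb]

theorem bool_flip {a b : Bool} (h : a ≠ b) : (!a) = b := by
  cases a <;> cases b <;> simp_all

theorem bool_eq_of_ne {a b c : Bool} (h : a ≠ b) (h' : c ≠ b) : a = c := by
  cases a <;> cases b <;> cases c <;> simp_all

theorem bool_not_ne (a : Bool) : (!a) ≠ a := by cases a <;> simp

theorem nb_ne_self (y : Vertex n) (c : Fin n) : nb y c ≠ y := by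
  intro h
  have := congrFun h c
  rw [nb_self] at this
  exact bool_not_ne _ this

/-- `y` lies in the face `y = x` on `A`, and in none of the faces `y = ω` on `F`, `F ∈ ℱ`. -/
def Dom (A : Finset (Fin n)) (x : Vertex n) (ℱ : Finset (Finset (Fin n))) (ω y : Vertex n) : Prop :=
  (∀ b ∈ A, y b = x b) ∧ ∀ F ∈ ℱ, ∃ b ∈ F, y b ≠ ω b

/-- Acyclic orientation with separated outmaps on `Dom A x ℱ ω`, closed on `A`, pointing to all faces
`F ∈ ℱ`, with source `x` of potential `T`. -/
structure Good (A : Finset (Fin n)) (x : Vertex n) (T : ℝ) (ℱ : Finset (Finset (Fin n)))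
    (ω : Vertex n) (G : Vertex n → Vertex n) (f : Vertex n → ℝ) : Prop where
  closed : ∀ y, Dom A x ℱ ω y → ∀ b ∈ A, G y b = x b
  sees : ∀ y, Dom A x ℱ ω y → ∀ F ∈ ℱ, ∃ b ∈ F, y b ≠ ω b ∧ G y b = ω b
  sep : ∀ y z, Dom A x ℱ ω y → Dom A x ℱ ω z → y ≠ z → ∃ c, y c ≠ z c ∧ G y c = G z c
  mono : ∀ y c, Dom A x ℱ ω y → Dom A x ℱ ω (nb y c) → G y c ≠ y c → f y < f (nb y c)
  src : ∀ y, Dom A x ℱ ω y → (y = x ∧ f y = T) ∨ (y ≠ x ∧ T + 1 / 2 ≤ f y)

theorem card_target (T y : Vertex n) (c : Fin n) (hc : T c ≠ y c) :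
    (Finset.univ.filter fun b => nb y c b = T b).card =
      (Finset.univ.filter fun b => y b = T b).card + 1 := by
  classical
  have h2 : (Finset.univ.filter fun b => nb y c b = T b) =
      insert c (Finset.univ.filter fun b => y b = T b) := by
    ext b
    simp only [Finset.mem_filter, Finset.mem_univ, true_and, Finset.mem_insert]
    by_cases hbc : b = c
    · subst hbc
      rw [nb_self]
      constructor
      · intro _; left; rfl
      · intro _
        exact bool_flip hc.symm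
    · rw [nb_ne y hbc]; simp [hbc]
  have h3 : c ∉ (Finset.univ.filter fun b => y b = T b) := by
    simp only [Finset.mem_filter, Finset.mem_univ, true_and]
    exact fun h => hc h.symm
  rw [h2, Finset.card_insert_of_notMem h3]

/-- The number of coordinates in which `y` and `q` differ. -/
def dist (y q : Vertex n) : ℕ := (Finset.univ.filter fun c => y c ≠ q c).card

theorem dist_self (q : Vertex n) : dist q q = 0 := by simp [dist]

theorem dist_le (y q : Vertex n) : dist y q ≤ n := by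
  calc dist y q ≤ (Finset.univ : Finset (Fin n)).card :=
        Finset.card_le_card (Finset.filter_subset _ _)
    _ = n := by simp

theorem dist_pos {y q : Vertex n} (h : y ≠ q) : 1 ≤ dist y q := by
  obtain ⟨c, hc⟩ := Function.ne_iff.mp h
  exact Finset.card_pos.mpr ⟨c, by simpa using hc⟩

theorem dist_nb (y q : Vertex n) (c : Fin n) (hc : y c = q c) :
    dist (nb y c) q = dist y q + 1 := by
  classical
  have h2 : (Finset.univ.filter fun b => nb y c b ≠ q b) =
      insert c (Finset.univ.filter fun b => y b ≠ q b) := by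
    ext b
    simp only [Finset.mem_filter, Finset.mem_univ, true_and, Finset.mem_insert]
    by_cases hbc : b = c
    · subst hbc
      rw [nb_self]
      constructor
      · intro _; left; rfl
      · intro _; rw [hc]; exact bool_not_ne _
    · rw [nb_ne y hbc]; simp [hbc]
  have h3 : c ∉ (Finset.univ.filter fun b => y b ≠ q b) := by
    simp [hc]
  rw [dist, h2, Finset.card_insert_of_notMem h3, dist]

/-- The target of a leg from `q` with closed set `A`. -/
def tgt (A : Finset (Fin n)) (q : Vertex n) : Vertex n := fun b => if b ∈ A then q b else !q b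

theorem tgt_mem {A : Finset (Fin n)} {q : Vertex n} {b : Fin n} (hb : b ∈ A) :
    tgt A q b = q b := by simp [tgt, hb]

theorem tgt_notMem {A : Finset (Fin n)} {q : Vertex n} {b : Fin n} (hb : b ∉ A) :
    tgt A q b = !q b := by simp [tgt, hb]

theorem leaf_good (A : Finset (Fin n)) (q : Vertex n) (T : ℝ) (ℱ : Finset (Finset (Fin n)))
    (ω : Vertex n) (hF : ∀ F ∈ ℱ, Disjoint F A)
    (hq : ∀ F ∈ ℱ, ∃ b ∈ F, q b ≠ ω b ∧ tgt A q b = ω b) :
    ∃ (G : Vertex n → Vertex n) (f : Vertex n → ℝ), Good A q T ℱ ω G f ∧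
      ∀ y, (∀ b ∈ A, y b = q b) → (∀ F ∈ ℱ, ∃ b ∈ F, y b ≠ ω b ∧ tgt A q b = ω b) →
        G y = tgt A q ∧ f y = T + dist y q := by
  classical
  set g := tgt A q with hg
  -- the faces whose essential coordinates are all right at `y`
  let Md : Vertex n → Finset (Fin n) → Prop := fun y F => ∀ b ∈ F, g b = ω b → y b = ω b
  let G : Vertex n → Vertex n := fun y b => if ∃ F ∈ ℱ, b ∈ F ∧ Md y F then ω b else g b
  have hGω : ∀ y b, g b = ω b → G y b = ω b := by
    intro y b hb
    by_cases h : ∃ F ∈ ℱ, b ∈ F ∧ Md y F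
    · simp only [G]; rw [if_pos h]
    · simp only [G]; rw [if_neg h]; exact hb
  have hGeq : ∀ y z : Vertex n, (∀ b, g b = ω b → y b = z b) → G y = G z := by
    intro y z h
    have hM : ∀ F, Md y F ↔ Md z F := by
      intro F
      constructor
      · intro hy b hb hgb
        rw [← h b hgb]; exact hy b hb hgb
      · intro hz b hb hgb
        rw [h b hgb]; exact hz b hb hgb
    funext b
    simp only [G, hM]
  have hGg : ∀ y, (¬ ∃ F ∈ ℱ, Md y F) → G y = g := by
    intro y hy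
    funext b
    simp only [G]
    rw [if_neg]
    rintro ⟨F, hFF, -, hM⟩
    exact hy ⟨F, hFF, hM⟩
  let φ : Vertex n → ℕ := fun y =>
    (n + 1) * (Finset.univ.filter fun c => g c = ω c ∧ y c = ω c).card +
      (Finset.univ.filter fun c => y c = G y c).card
  have hφ : ∀ y c, G y c ≠ y c → φ y < φ (nb y c) := by
    intro y c hc
    by_cases hgc : g c = ω c
    · have hGc := hGω y c hgc
      have hyc : y c ≠ ω c := by rw [← hGc]; exact fun h => hc h.symm
      have hzc : nb y c c = ω c := by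
        rw [nb_self]
        exact bool_flip hyc
      have h1 : (Finset.univ.filter fun b => g b = ω b ∧ nb y c b = ω b) =
          insert c (Finset.univ.filter fun b => g b = ω b ∧ y b = ω b) := by
        ext b
        simp only [Finset.mem_filter, Finset.mem_univ, true_and, Finset.mem_insert]
        by_cases hbc : b = c
        · subst hbc; simp [hgc, hzc]
        · rw [nb_ne y hbc]; simp [hbc]
      have h2 : c ∉ (Finset.univ.filter fun b => g b = ω b ∧ y b = ω b) := by
        simp [hyc]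
      have h3 : (Finset.univ.filter fun b => y b = G y b).card ≤ n := by
        calc _ ≤ (Finset.univ : Finset (Fin n)).card := Finset.card_le_card (Finset.filter_subset _ _)
          _ = n := by simp
      simp only [φ]
      rw [h1, Finset.card_insert_of_notMem h2]
      have : (n + 1) * ((Finset.univ.filter fun b => g b = ω b ∧ y b = ω b).card + 1) =
        (n + 1) * (Finset.univ.filter fun b => g b = ω b ∧ y b = ω b).card + (n + 1) := by ring
      rw [this]
      omega
    · have hP : ∀ b, g b = ω b → y b = nb y c b := by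
        intro b hb
        have : b ≠ c := fun h => hgc (h ▸ hb)
        rw [nb_ne y this]
      have hG := hGeq y (nb y c) hP
      have h1 : (Finset.univ.filter fun b => g b = ω b ∧ nb y c b = ω b) =
          (Finset.univ.filter fun b => g b = ω b ∧ y b = ω b) := by
        ext b
        simp only [Finset.mem_filter, Finset.mem_univ, true_and]
        constructor
        · rintro ⟨h, h'⟩; exact ⟨h, by rw [hP b h]; exact h'⟩
        · rintro ⟨h, h'⟩; exact ⟨h, by rw [← hP b h]; exact h'⟩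
      have h2 := card_target (G y) y c hc
      simp only [φ]
      rw [h1, ← hG, h2]
      omega
  let f : Vertex n → ℝ := fun y =>
    if ∃ F ∈ ℱ, Md y F then T + (n + 1) + φ y else T + dist y q
  have hf1 : ∀ y, (∃ F ∈ ℱ, Md y F) → f y = T + (n + 1) + φ y := by
    intro y hy; simp only [f]; rw [if_pos hy]
  have hf0 : ∀ y, (¬ ∃ F ∈ ℱ, Md y F) → f y = T + dist y q := by
    intro y hy; simp only [f]; rw [if_neg hy]
  have hunm : ∀ y, (∀ F ∈ ℱ, ∃ b ∈ F, y b ≠ ω b ∧ g b = ω b) → ¬ ∃ F ∈ ℱ, Md y F := by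
    rintro y hy ⟨F, hFF, hM⟩
    obtain ⟨b, hb, h1, h2⟩ := hy F hFF
    exact h1 (hM b hb h2)
  refine ⟨G, f, ⟨?_, ?_, ?_, ?_, ?_⟩, ?_⟩
  · intro y hy b hb
    have : ¬ ∃ F ∈ ℱ, b ∈ F ∧ Md y F := by
      rintro ⟨F, hFF, hbF, -⟩
      exact (Finset.disjoint_left.mp (hF F hFF)) hbF hb
    simp only [G]; rw [if_neg this, hg, tgt_mem hb]
  · intro y hy F hFF
    by_cases hM : Md y F
    · obtain ⟨b, hbF, hb⟩ := hy.2 F hFF
      refine ⟨b, hbF, hb, ?_⟩
      simp only [G]; rw [if_pos ⟨F, hFF, hbF, hM⟩]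
    · simp only [Md, not_forall] at hM
      obtain ⟨b, hbF, hgb, hb⟩ := hM
      exact ⟨b, hbF, hb, hGω y b hgb⟩
  · intro y z hy hz hne
    by_cases h : ∀ b, g b = ω b → y b = z b
    · obtain ⟨c, hc⟩ := Function.ne_iff.mp hne
      exact ⟨c, hc, by rw [hGeq y z h]⟩
    · simp only [not_forall] at h
      obtain ⟨c, hgc, hc⟩ := h
      exact ⟨c, hc, by rw [hGω y c hgc, hGω z c hgc]⟩
  · intro y c hy hz hc
    by_cases hM : ∃ F ∈ ℱ, Md y F
    · have hM' : ∃ F ∈ ℱ, Md (nb y c) F := by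
        obtain ⟨F, hFF, hM⟩ := hM
        refine ⟨F, hFF, ?_⟩
        intro b hb hgb
        have hbc : b ≠ c := by
          rintro rfl
          exact hc (by rw [hGω y b hgb, hM b hb hgb])
        rw [nb_ne y hbc]; exact hM b hb hgb
      rw [hf1 y hM, hf1 _ hM']
      have : (φ y : ℝ) < φ (nb y c) := by exact_mod_cast hφ y c hc
      linarith
    · rw [hf0 y hM]
      by_cases hM' : ∃ F ∈ ℱ, Md (nb y c) F
      · rw [hf1 _ hM']
        have h1 : (dist y q : ℝ) ≤ n := by exact_mod_cast dist_le y q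
        have h2 : (0 : ℝ) ≤ φ (nb y c) := Nat.cast_nonneg _
        linarith
      · rw [hf0 _ hM']
        rw [hGg y hM] at hc
        have hcA : c ∉ A := by
          intro hcA
          exact hc (by rw [hg, tgt_mem hcA, hy.1 c hcA])
        have hyc : y c = q c := by
          rw [hg, tgt_notMem hcA] at hc
          exact bool_eq_of_ne (fun h => hc h.symm) (bool_not_ne _).symm
        rw [dist_nb y q c hyc]
        push_cast
        linarith
  · intro y hy
    by_cases hyq : y = q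
    · left
      refine ⟨hyq, ?_⟩
      subst hyq
      rw [hf0 _ (hunm _ hq), dist_self]
      simp
    · right
      refine ⟨hyq, ?_⟩
      by_cases hM : ∃ F ∈ ℱ, Md y F
      · rw [hf1 y hM]
        have h2 : (0 : ℝ) ≤ φ y := Nat.cast_nonneg _
        have h3 : (0 : ℝ) ≤ n := Nat.cast_nonneg _
        linarith
      · rw [hf0 y hM]
        have : (1 : ℝ) ≤ dist y q := by exact_mod_cast dist_pos hyq
        linarith
  · intro y _ hy
    have := hunm y hy
    exact ⟨hGg y this, hf0 y this⟩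

/-- The part of `F` that does not contradict the closed set `B` with values `x'`. -/
def cut (B : Finset (Fin n)) (x' ω : Vertex n) (F : Finset (Fin n)) : Finset (Fin n) :=
  F.filter fun b => b ∈ B → x' b = ω b

theorem mem_cut {B : Finset (Fin n)} {x' ω : Vertex n} {F : Finset (Fin n)} {b : Fin n} :
    b ∈ cut B x' ω F ↔ b ∈ F ∧ (b ∈ B → x' b = ω b) := by
  simp [cut]

/-- `x'` on `B`, `ω` elsewhere. -/
def mix (B : Finset (Fin n)) (x' ω : Vertex n) : Vertex n := fun b => if b ∈ B then x' b else ω b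

theorem mix_mem {B : Finset (Fin n)} {x' ω : Vertex n} {b : Fin n} (hb : b ∈ B) :
    mix B x' ω b = x' b := by simp [mix, hb]

theorem mix_notMem {B : Finset (Fin n)} {x' ω : Vertex n} {b : Fin n} (hb : b ∉ B) :
    mix B x' ω b = ω b := by simp [mix, hb]

theorem mix_cut {B : Finset (Fin n)} {x' ω : Vertex n} {F : Finset (Fin n)} {b : Fin n}
    (hb : b ∈ cut B x' ω F) : mix B x' ω b = ω b := by
  rw [mem_cut] at hb
  by_cases hbB : b ∈ B
  · rw [mix_mem hbB, hb.2 hbB]
  · exact mix_notMem hbB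

/-- Gluing the structure of a subcube into the structure around it. -/
theorem join_good {A B : Finset (Fin n)} {x x' : Vertex n} {T T' : ℝ}
    {ℱ : Finset (Finset (Fin n))} {ω : Vertex n} (hx : ∀ b ∈ A, x' b = x b)
    (hBA : Disjoint B A) (hT : T + 1 / 2 ≤ T') (hxB : ∃ b ∈ B, x b ≠ x' b)
    (hF : ∀ F ∈ ℱ, Disjoint F A)
    (hxF : ∀ F ∈ ℱ, ∃ b ∈ cut B x' ω F, x b ≠ ω b)
    {G₁ G₂ : Vertex n → Vertex n} {f₁ f₂ : Vertex n → ℝ}
    (h₁ : Good A x T (insert B (ℱ.image (cut B x' ω))) (mix B x' ω) G₁ f₁)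
    (h₂ : Good (A ∪ B) x' T' (ℱ.image (· \ (A ∪ B))) ω G₂ f₂)
    (hcross : ∀ y b, b ∈ B → Dom A x (insert B (ℱ.image (cut B x' ω))) (mix B x' ω) y →
      Dom (A ∪ B) x' (ℱ.image (· \ (A ∪ B))) ω (nb y b) → f₁ y < f₂ (nb y b)) :
    ∃ (G : Vertex n → Vertex n) (f : Vertex n → ℝ), Good A x T ℱ ω G f ∧
      (∀ y, Dom (A ∪ B) x' (ℱ.image (· \ (A ∪ B))) ω y → G y = G₂ y ∧ f y = f₂ y) ∧
      (∀ y, Dom A x ℱ ω y → (∀ F ∈ ℱ, ∃ b ∈ cut B x' ω F, y b ≠ ω b) →
        (∃ b ∈ B, y b ≠ x' b) →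
        Dom A x (insert B (ℱ.image (cut B x' ω))) (mix B x' ω) y ∧ G y = G₁ y ∧ f y = f₁ y) := by
  classical
  set ω' := mix B x' ω with hω'
  set ℱ₁ : Finset (Finset (Fin n)) := insert B (ℱ.image (cut B x' ω)) with hℱ₁
  set ℱ₂ : Finset (Finset (Fin n)) := ℱ.image (· \ (A ∪ B)) with hℱ₂
  -- the three regions
  let R3 : Vertex n → Prop := fun y => ∃ F ∈ ℱ, ∀ b ∈ cut B x' ω F, y b = ω b
  let R2 : Vertex n → Prop := fun y => ∀ b ∈ B, y b = x' b
  let G3 : Vertex n := fun b => if b ∈ A then x b else ω b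
  let G : Vertex n → Vertex n := fun y => if R3 y then G3 else if R2 y then G₂ y else G₁ y
  let φ3 : Vertex n → ℕ := fun y => (Finset.univ.filter fun c => y c = G3 c).card
  obtain ⟨M, hM⟩ : ∃ M : ℝ, ∀ y, f₁ y < M ∧ f₂ y < M ∧ T + 1 / 2 < M := by
    obtain ⟨M₁, hM₁⟩ := (Set.finite_range f₁).bddAbove
    obtain ⟨M₂, hM₂⟩ := (Set.finite_range f₂).bddAbove
    refine ⟨max M₁ (max M₂ (T + 1 / 2)) + 1, fun y => ⟨?_, ?_, ?_⟩⟩
    · have := hM₁ ⟨y, rfl⟩
      have := le_max_left M₁ (max M₂ (T + 1 / 2))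
      linarith
    · have := hM₂ ⟨y, rfl⟩
      have := (le_max_left M₂ (T + 1 / 2)).trans (le_max_right M₁ _)
      linarith
    · have := (le_max_right M₂ (T + 1 / 2)).trans (le_max_right M₁ _)
      linarith
  let f : Vertex n → ℝ := fun y => if R3 y then M + φ3 y else if R2 y then f₂ y else f₁ y
  have hG3 : ∀ y, R3 y → G y = G3 := fun y h => by simp only [G]; rw [if_pos h]
  have hG2 : ∀ y, ¬ R3 y → R2 y → G y = G₂ y := fun y h h' => by
    simp only [G]; rw [if_neg h, if_pos h']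
  have hG1 : ∀ y, ¬ R3 y → ¬ R2 y → G y = G₁ y := fun y h h' => by
    simp only [G]; rw [if_neg h, if_neg h']
  have hf3 : ∀ y, R3 y → f y = M + φ3 y := fun y h => by simp only [f]; rw [if_pos h]
  have hf2 : ∀ y, ¬ R3 y → R2 y → f y = f₂ y := fun y h h' => by
    simp only [f]; rw [if_neg h, if_pos h']
  have hf1 : ∀ y, ¬ R3 y → ¬ R2 y → f y = f₁ y := fun y h h' => by
    simp only [f]; rw [if_neg h, if_neg h']
  have hD2 : ∀ y, Dom A x ℱ ω y → ¬ R3 y → R2 y → Dom (A ∪ B) x' ℱ₂ ω y := by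
    intro y hy h3 h2
    refine ⟨?_, ?_⟩
    · intro b hb
      rcases Finset.mem_union.mp hb with hb | hb
      · rw [hx b hb]; exact hy.1 b hb
      · exact h2 b hb
    · intro F hFF
      obtain ⟨F₀, hF₀, rfl⟩ := Finset.mem_image.mp hFF
      have : ¬ ∀ b ∈ cut B x' ω F₀, y b = ω b := fun h => h3 ⟨F₀, hF₀, h⟩
      simp only [not_forall] at this
      obtain ⟨b, hb, hyb⟩ := this
      have hbB : b ∉ B := by
        intro hbB
        exact hyb (by rw [h2 b hbB]; exact (mem_cut.mp hb).2 hbB)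
      have hbA : b ∉ A := fun h => (Finset.disjoint_left.mp (hF F₀ hF₀)) (mem_cut.mp hb).1 h
      exact ⟨b, Finset.mem_sdiff.mpr ⟨(mem_cut.mp hb).1, by simp [hbA, hbB]⟩, hyb⟩
  have hD2' : ∀ y, Dom (A ∪ B) x' ℱ₂ ω y → ¬ R3 y ∧ R2 y := by
    intro y hy
    refine ⟨?_, fun b hb => hy.1 b (Finset.mem_union_right _ hb)⟩
    rintro ⟨F, hFF, hyF⟩
    obtain ⟨b, hb, hyb⟩ := hy.2 (F \ (A ∪ B)) (Finset.mem_image.mpr ⟨F, hFF, rfl⟩)
    simp only [Finset.mem_sdiff, Finset.mem_union, not_or] at hb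
    exact hyb (hyF b (mem_cut.mpr ⟨hb.1, fun h => absurd h hb.2.2⟩))
  have hD1 : ∀ y, Dom A x ℱ ω y → ¬ R3 y → ¬ R2 y → Dom A x ℱ₁ ω' y := by
    intro y hy h3 h2
    refine ⟨hy.1, ?_⟩
    intro F hFF
    rcases Finset.mem_insert.mp hFF with rfl | hFF
    · simp only [R2, not_forall] at h2
      obtain ⟨b, hb, hyb⟩ := h2
      exact ⟨b, hb, by rw [hω', mix_mem hb]; exact hyb⟩
    · obtain ⟨F₀, hF₀, rfl⟩ := Finset.mem_image.mp hFF
      have : ¬ ∀ b ∈ cut B x' ω F₀, y b = ω b := fun h => h3 ⟨F₀, hF₀, h⟩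
      simp only [not_forall] at this
      obtain ⟨b, hb, hyb⟩ := this
      exact ⟨b, hb, by rw [hω', mix_cut hb]; exact hyb⟩
  have hGA : ∀ y, Dom A x ℱ ω y → ∀ b ∈ A, G y b = x b := by
    intro y hy b hb
    by_cases h3 : R3 y
    · rw [hG3 y h3]; simp only [G3]; rw [if_pos hb]
    by_cases h2 : R2 y
    · rw [hG2 y h3 h2, h₂.closed y (hD2 y hy h3 h2) b (Finset.mem_union_left _ hb), hx b hb]
    · rw [hG1 y h3 h2, h₁.closed y (hD1 y hy h3 h2) b hb]
  -- outside region 3 every face is seen through its cut part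
  have hscut : ∀ y, Dom A x ℱ ω y → ¬ R3 y → ∀ F ∈ ℱ,
      ∃ b ∈ cut B x' ω F, y b ≠ ω b ∧ G y b = ω b := by
    intro y hy h3 F hFF
    by_cases h2 : R2 y
    · obtain ⟨b, hb, h4, h5⟩ := h₂.sees y (hD2 y hy h3 h2) (F \ (A ∪ B))
        (Finset.mem_image.mpr ⟨F, hFF, rfl⟩)
      simp only [Finset.mem_sdiff, Finset.mem_union, not_or] at hb
      exact ⟨b, mem_cut.mpr ⟨hb.1, fun h => absurd h hb.2.2⟩, h4, by rw [hG2 y h3 h2]; exact h5⟩
    · obtain ⟨b, hb, h4, h5⟩ := h₁.sees y (hD1 y hy h3 h2) (cut B x' ω F)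
        (Finset.mem_insert_of_mem (Finset.mem_image.mpr ⟨F, hFF, rfl⟩))
      rw [hω', mix_cut hb] at h4 h5
      exact ⟨b, hb, h4, by rw [hG1 y h3 h2]; exact h5⟩
  have hsB : ∀ y, Dom A x ℱ ω y → ¬ R3 y → ¬ R2 y → ∃ b ∈ B, y b ≠ x' b ∧ G y b = x' b := by
    intro y hy h3 h2
    obtain ⟨b, hb, h4, h5⟩ := h₁.sees y (hD1 y hy h3 h2) B (Finset.mem_insert_self _ _)
    rw [hω', mix_mem hb] at h4 h5
    exact ⟨b, hb, h4, by rw [hG1 y h3 h2]; exact h5⟩
  -- region 3 against the others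
  have hsep3 : ∀ y z, Dom A x ℱ ω y → Dom A x ℱ ω z → R3 y → ¬ R3 z →
      ∃ c, y c ≠ z c ∧ G y c = G z c := by
    intro y z hy hz h3 h3'
    obtain ⟨F, hFF, hyF⟩ := h3
    obtain ⟨b, hb, h4, h5⟩ := hscut z hz h3' F hFF
    have hbA : b ∉ A := fun h => (Finset.disjoint_left.mp (hF F hFF)) (mem_cut.mp hb).1 h
    refine ⟨b, ?_, ?_⟩
    · rw [hyF b hb]; exact fun h => h4 h.symm
    · rw [h5, hG3 y ⟨F, hFF, hyF⟩]; simp only [G3]; rw [if_neg hbA]
  have hsep2 : ∀ y z, Dom A x ℱ ω y → Dom A x ℱ ω z → ¬ R3 y → R2 y → ¬ R3 z → ¬ R2 z →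
      ∃ c, y c ≠ z c ∧ G y c = G z c := by
    intro y z hy hz h3 h2 h3' h2'
    obtain ⟨b, hb, h4, h5⟩ := hsB z hz h3' h2'
    refine ⟨b, ?_, ?_⟩
    · rw [h2 b hb]; exact fun h => h4 h.symm
    · rw [h5, hG2 y h3 h2]
      exact h₂.closed y (hD2 y hy h3 h2) b (Finset.mem_union_right _ hb)
  have hsymm : ∀ y z : Vertex n, (∃ c, y c ≠ z c ∧ G y c = G z c) →
      ∃ c, z c ≠ y c ∧ G z c = G y c := by
    rintro y z ⟨c, h, h'⟩; exact ⟨c, h.symm, h'.symm⟩
  have hxR3 : ¬ R3 x := by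
    rintro ⟨F, hFF, hyF⟩
    obtain ⟨b, hb, h⟩ := hxF F hFF
    exact h (hyF b hb)
  have hxR2 : ¬ R2 x := by
    intro h
    obtain ⟨b, hb, h'⟩ := hxB
    exact h' (h b hb)
  refine ⟨G, f, ⟨hGA, ?_, ?_, ?_, ?_⟩, ?_, ?_⟩
  · -- sees
    intro y hy F hFF
    by_cases h3 : R3 y
    · obtain ⟨b, hb, hyb⟩ := hy.2 F hFF
      have hbA : b ∉ A := fun h => (Finset.disjoint_left.mp (hF F hFF)) hb h
      refine ⟨b, hb, hyb, ?_⟩
      rw [hG3 y h3]; simp only [G3]; rw [if_neg hbA]
    · obtain ⟨b, hb, h4, h5⟩ := hscut y hy h3 F hFF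
      exact ⟨b, (mem_cut.mp hb).1, h4, h5⟩
  · -- separation
    intro y z hy hz hne
    by_cases h3 : R3 y
    · by_cases h3' : R3 z
      · obtain ⟨c, hc⟩ := Function.ne_iff.mp hne
        exact ⟨c, hc, by rw [hG3 y h3, hG3 z h3']⟩
      · exact hsep3 y z hy hz h3 h3'
    by_cases h3' : R3 z
    · exact hsymm _ _ (hsep3 z y hz hy h3' h3)
    by_cases h2 : R2 y
    · by_cases h2' : R2 z
      · rw [hG2 y h3 h2, hG2 z h3' h2']
        exact h₂.sep y z (hD2 y hy h3 h2) (hD2 z hz h3' h2') hne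
      · exact hsep2 y z hy hz h3 h2 h3' h2'
    · by_cases h2' : R2 z
      · exact hsymm _ _ (hsep2 z y hz hy h3' h2' h3 h2)
      · rw [hG1 y h3 h2, hG1 z h3' h2']
        exact h₁.sep y z (hD1 y hy h3 h2) (hD1 z hz h3' h2') hne
  · -- potential
    intro y c hy hz hc
    by_cases h3 : R3 y
    · have h3' : R3 (nb y c) := by
        obtain ⟨F, hFF, hyF⟩ := h3
        refine ⟨F, hFF, ?_⟩
        intro b hb
        have hbA : b ∉ A := fun h => (Finset.disjoint_left.mp (hF F hFF)) (mem_cut.mp hb).1 h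
        have hbc : b ≠ c := by
          rintro rfl
          apply hc
          rw [hG3 y ⟨F, hFF, hyF⟩]; simp only [G3]; rw [if_neg hbA, hyF b hb]
        rw [nb_ne y hbc]; exact hyF b hb
      rw [hf3 y h3, hf3 _ h3']
      rw [hG3 y h3] at hc
      have h2 : φ3 (nb y c) = φ3 y + 1 := card_target G3 y c hc
      rw [h2]
      push_cast
      linarith
    by_cases h3' : R3 (nb y c)
    · rw [hf3 _ h3']
      have h4 : (0 : ℝ) ≤ φ3 (nb y c) := Nat.cast_nonneg _
      by_cases h2 : R2 y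
      · rw [hf2 y h3 h2]; have := (hM y).2.1; linarith
      · rw [hf1 y h3 h2]; have := (hM y).1; linarith
    by_cases h2 : R2 y
    · have h2' : R2 (nb y c) := by
        intro b hb
        have hbc : b ≠ c := by
          rintro rfl
          apply hc
          rw [hG2 y h3 h2, h₂.closed y (hD2 y hy h3 h2) b (Finset.mem_union_right _ hb), h2 b hb]
        rw [nb_ne y hbc]; exact h2 b hb
      rw [hf2 y h3 h2, hf2 _ h3' h2']
      exact h₂.mono y c (hD2 y hy h3 h2) (hD2 _ hz h3' h2') (by rw [← hG2 y h3 h2]; exact hc)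
    · by_cases h2' : R2 (nb y c)
      · rw [hf1 y h3 h2, hf2 _ h3' h2']
        have hcB : c ∈ B := by
          by_contra hcB
          apply h2
          intro b hb
          have hbc : b ≠ c := fun h => hcB (h ▸ hb)
          rw [← nb_ne y hbc]; exact h2' b hb
        exact hcross y c hcB (hD1 y hy h3 h2) (hD2 _ hz h3' h2')
      · rw [hf1 y h3 h2, hf1 _ h3' h2']
        exact h₁.mono y c (hD1 y hy h3 h2) (hD1 _ hz h3' h2') (by rw [← hG1 y h3 h2]; exact hc)
  · -- source
    intro y hy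
    by_cases h3 : R3 y
    · right
      refine ⟨fun h => hxR3 (h ▸ h3), ?_⟩
      rw [hf3 y h3]
      have h4 : (0 : ℝ) ≤ φ3 y := Nat.cast_nonneg _
      have := (hM y).2.2
      linarith
    by_cases h2 : R2 y
    · right
      refine ⟨fun h => hxR2 (h ▸ h2), ?_⟩
      rw [hf2 y h3 h2]
      rcases h₂.src y (hD2 y hy h3 h2) with ⟨-, h⟩ | ⟨-, h⟩ <;> linarith
    · rw [hf1 y h3 h2]
      exact h₁.src y (hD1 y hy h3 h2)
  · intro y hy
    obtain ⟨h3, h2⟩ := hD2' y hy
    exact ⟨hG2 y h3 h2, hf2 y h3 h2⟩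
  · rintro y hy hyF ⟨b, hb, hyb⟩
    have h3 : ¬ R3 y := by
      rintro ⟨F, hFF, hyF'⟩
      obtain ⟨b, hb, h⟩ := hyF F hFF
      exact h (hyF' b hb)
    have h2 : ¬ R2 y := fun h => hyb (h b hb)
    exact ⟨hD1 y hy h3 h2, hG1 y h3 h2, hf1 y h3 h2⟩

/-- Values above `T` are squeezed between `T` and `T + 1/2`. -/
noncomputable def squeeze (T v : ℝ) : ℝ :=
  if v ≤ T then v else T + (v - T) / (2 * (1 + (v - T)))

theorem squeeze_of_le {T v : ℝ} (h : v ≤ T) : squeeze T v = v := by simp [squeeze, h]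

theorem squeeze_gt {T v : ℝ} (h : T < v) : T < squeeze T v := by
  rw [squeeze, if_neg (not_le.mpr h)]
  have : 0 < (v - T) / (2 * (1 + (v - T))) := by
    have : 0 < v - T := by linarith
    positivity
  linarith

theorem squeeze_lt (T v : ℝ) : squeeze T v < T + 1 / 2 := by
  by_cases h : v ≤ T
  · rw [squeeze_of_le h]; linarith
  · rw [squeeze, if_neg h]
    have h0 : 0 < v - T := by linarith
    have : (v - T) / (2 * (1 + (v - T))) < 1 / 2 := by
      rw [div_lt_div_iff₀ (by positivity) (by norm_num)]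
      linarith
    linarith

theorem squeeze_mono {T v w : ℝ} (h : v < w) : squeeze T v < squeeze T w := by
  by_cases hw : w ≤ T
  · rw [squeeze_of_le hw, squeeze_of_le (by linarith)]; exact h
  · by_cases hv : v ≤ T
    · rw [squeeze_of_le hv]
      exact lt_of_le_of_lt hv (squeeze_gt (not_le.mp hw))
    · rw [squeeze, squeeze, if_neg hv, if_neg hw]
      have hv0 : 0 < v - T := by linarith
      have hw0 : 0 < w - T := by linarith
      have : (v - T) / (2 * (1 + (v - T))) < (w - T) / (2 * (1 + (w - T))) := by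
        rw [div_lt_div_iff₀ (by positivity) (by positivity)]
        nlinarith
      linarith

theorem squeeze_good {A : Finset (Fin n)} {x : Vertex n} {T T' : ℝ}
    {ℱ : Finset (Finset (Fin n))} {ω : Vertex n} {G : Vertex n → Vertex n} {f : Vertex n → ℝ}
    (h : Good A x T ℱ ω G f) (hT : T + 1 / 2 ≤ T') :
    Good A x T ℱ ω G (fun y => squeeze T' (f y)) := by
  refine ⟨h.closed, h.sees, h.sep, ?_, ?_⟩
  · intro y c hy hz hc
    exact squeeze_mono (h.mono y c hy hz hc)
  · intro y hy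
    rcases h.src y hy with ⟨h1, h2⟩ | ⟨h1, h2⟩
    · left
      refine ⟨h1, ?_⟩
      show squeeze T' (f y) = T
      rw [h2, squeeze_of_le (by linarith)]
    · right
      refine ⟨h1, ?_⟩
      show T + 1 / 2 ≤ squeeze T' (f y)
      by_cases hle : f y ≤ T'
      · rw [squeeze_of_le hle]; exact h2
      · have := squeeze_gt (not_le.mp hle)
        linarith

end Pool.Agent.MP4d246d.Gain
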