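import Mathlib

/-!
# Hitting many sets with few elements
-/

namespace Pool.Agent.MP4d246d.Gain

theorem list_sum_drop {ι : Type*} (l : List ι) (f g : ι → ℝ) (d : ℝ) (h : ∀ j ∈ l, f j ≤ g j)
    {i : ι} (hi : i ∈ l) (hfg : f i + d ≤ g i) : (l.map f).sum + d ≤ (l.map g).sum := by
  induction l with
  | nil => simp at hi
  | cons a l ih =>
    rw [List.map_cons, List.map_cons, List.sum_cons, List.sum_cons]
    have hl : (l.map f).sum ≤ (l.map g).sum :=
      List.sum_le_sum fun j hj => h j (List.mem_cons_of_mem _ hj)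
    rcases List.mem_cons.mp hi with rfl | hi
    · linarith
    · have h1 := ih (fun j hj => h j (List.mem_cons_of_mem _ hj)) hi
      have h2 := h a List.mem_cons_self
      linarith

theorem exp_three_quarters_le : Real.exp (3 / 4) ≤ 4 := by
  have h1 : Real.exp (3 / 4) ≤ Real.exp 1 := Real.exp_le_exp.mpr (by norm_num)
  have h2 := Real.exp_one_lt_d9
  linarith

/-- One step of the hitting game. The sets `V i ⊆ Q` have terms `τ i < 1`. They grow by the factor
`exp (3/4 |V i| / |Q|)`, and each element of `H ∩ V i` divides them by `4`. -/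
theorem exists_hits {α ι : Type*} [DecidableEq α] (Q : Finset α) (hQ : Q.Nonempty) (l : List ι)
    (τ : ι → ℝ) (V : ι → Finset α) (hV : ∀ i ∈ l, V i ⊆ Q) (h0 : ∀ i ∈ l, 0 ≤ τ i)
    (h1 : ∀ i ∈ l, τ i < 1) :
    ∃ H ⊆ Q,
      (∀ i ∈ l, τ i * Real.exp (3 / 4 * ((V i).card / Q.card)) * (1 / 4) ^ (H ∩ V i).card < 1) ∧
      (l.map fun i =>
        τ i * Real.exp (3 / 4 * ((V i).card / Q.card)) * (1 / 4) ^ (H ∩ V i).card).sum +
          3 / 4 * ((H.card : ℝ) - 1) ≤ (l.map τ).sum := by
  classical
  have hQpos : 0 < Q.card := Finset.card_pos.mpr hQ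
  have hQ1 : (0 : ℝ) < Q.card := by exact_mod_cast hQpos
  set F : Finset α → ι → ℝ := fun H i =>
    τ i * Real.exp (3 / 4 * ((V i).card / Q.card)) * (1 / 4) ^ (H ∩ V i).card with hF
  set X : ℝ := (l.map τ).sum with hX
  -- averaging
  have hsingle : ∀ i ∈ l, ∑ b ∈ Q, F {b} i ≤ Q.card * τ i := by
    intro i hi
    have h2 : ∀ b ∈ Q, ((1 / 4 : ℝ)) ^ (({b} : Finset α) ∩ V i).card =
        1 - (3 / 4) * (if b ∈ V i then 1 else 0) := by
      intro b _
      by_cases hb : b ∈ V i
      · rw [Finset.singleton_inter_of_mem hb]; simp [hb]; norm_num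
      · rw [Finset.singleton_inter_of_notMem hb]; simp [hb]
    simp only [hF]
    rw [← Finset.mul_sum, Finset.sum_congr rfl h2, Finset.sum_sub_distrib, ← Finset.mul_sum,
      Finset.sum_boole]
    have h3 : Q.filter (fun b => b ∈ V i) = V i := by
      ext b
      simp only [Finset.mem_filter, and_iff_right_iff_imp]
      exact fun h => hV i hi h
    rw [h3]
    simp only [Finset.sum_const, nsmul_eq_mul, mul_one]
    set v : ℝ := ((V i).card : ℝ) with hv
    have h4 := Real.add_one_le_exp (-(3 / 4 * (v / Q.card)))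
    have h5 : (Q.card : ℝ) - 3 / 4 * v ≤ Q.card * Real.exp (-(3 / 4 * (v / Q.card))) := by
      have : (Q.card : ℝ) - 3 / 4 * v = Q.card * (-(3 / 4 * (v / Q.card)) + 1) := by
        field_simp
        ring
      rw [this]
      exact mul_le_mul_of_nonneg_left h4 hQ1.le
    have h6 : 0 ≤ τ i * Real.exp (3 / 4 * (v / Q.card)) :=
      mul_nonneg (h0 i hi) (Real.exp_pos _).le
    calc τ i * Real.exp (3 / 4 * (v / Q.card)) * ((Q.card : ℝ) - 3 / 4 * v)
        ≤ τ i * Real.exp (3 / 4 * (v / Q.card)) *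
          (Q.card * Real.exp (-(3 / 4 * (v / Q.card)))) := mul_le_mul_of_nonneg_left h5 h6
      _ = Q.card * τ i * (Real.exp (3 / 4 * (v / Q.card)) *
          Real.exp (-(3 / 4 * (v / Q.card)))) := by ring
      _ = Q.card * τ i := by rw [← Real.exp_add]; simp
  have havg : ∑ b ∈ Q, (l.map (F {b})).sum ≤ Q.card * X := by
    have h2 : ∀ l' : List ι, (∀ i ∈ l', i ∈ l) →
        ∑ b ∈ Q, (l'.map (F {b})).sum ≤ Q.card * (l'.map τ).sum := by
      intro l' hl'
      induction l' with
      | nil => simp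
      | cons a l' ih =>
        simp only [List.map_cons, List.sum_cons]
        rw [Finset.sum_add_distrib, mul_add]
        exact add_le_add (hsingle a (hl' a List.mem_cons_self))
          (ih fun i hi => hl' i (List.mem_cons_of_mem _ hi))
    exact h2 l fun i hi => hi
  obtain ⟨b, hbQ, hb⟩ : ∃ b ∈ Q, (l.map (F {b})).sum ≤ X := by
    by_contra hcon
    push Not at hcon
    have h2 : ∑ _b ∈ Q, X < ∑ b ∈ Q, (l.map (F {b})).sum :=
      Finset.sum_lt_sum_of_nonempty hQ hcon
    rw [Finset.sum_const, nsmul_eq_mul] at h2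
    linarith
  -- a maximal admissible set
  obtain ⟨H, hH, hmax⟩ := Finset.exists_max_image
    (Q.powerset.filter fun H => (l.map (F H)).sum + 3 / 4 * ((H.card : ℝ) - 1) ≤ X) Finset.card
    ⟨{b}, by
      rw [Finset.mem_filter, Finset.mem_powerset, Finset.singleton_subset_iff]
      refine ⟨hbQ, ?_⟩
      rw [Finset.card_singleton]
      simpa using hb⟩
  rw [Finset.mem_filter, Finset.mem_powerset] at hH
  refine ⟨H, hH.1, ?_, hH.2⟩
  by_contra hcon
  push Not at hcon
  obtain ⟨i, hi, hi1⟩ := hcon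
  have hi2 : 1 ≤ F H i := hi1
  by_cases hsub : V i ⊆ H
  · have h2 : H ∩ V i = V i := Finset.inter_eq_right.mpr hsub
    have h3 : Real.exp (3 / 4 * ((V i).card / Q.card)) * (1 / 4) ^ (V i).card ≤ 1 := by
      have h4 : Real.exp (3 / 4 * ((V i).card / Q.card)) ≤ 4 ^ (V i).card := by
        calc Real.exp (3 / 4 * ((V i).card / Q.card))
            ≤ Real.exp (((V i).card : ℝ) * (3 / 4)) := by
              apply Real.exp_le_exp.mpr
              have : ((V i).card : ℝ) / Q.card ≤ (V i).card := by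
                apply div_le_self (Nat.cast_nonneg _)
                exact_mod_cast hQpos
              linarith
          _ = (Real.exp (3 / 4)) ^ (V i).card := by rw [← Real.exp_nat_mul]
          _ ≤ 4 ^ (V i).card := pow_le_pow_left₀ (Real.exp_pos _).le exp_three_quarters_le _
      calc Real.exp (3 / 4 * ((V i).card / Q.card)) * (1 / 4) ^ (V i).card
          ≤ 4 ^ (V i).card * (1 / 4) ^ (V i).card :=
            mul_le_mul_of_nonneg_right h4 (by positivity)
        _ = 1 := by rw [← mul_pow]; norm_num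
    have h5 : F H i ≤ τ i := by
      simp only [hF]
      rw [h2, mul_assoc]
      calc τ i * (Real.exp (3 / 4 * ((V i).card / Q.card)) * (1 / 4) ^ (V i).card)
          ≤ τ i * 1 := mul_le_mul_of_nonneg_left h3 (h0 i hi)
        _ = τ i := mul_one _
    have := h1 i hi
    linarith
  · obtain ⟨g, hg, hgH⟩ := Finset.not_subset.mp hsub
    have hcard : (insert g H).card = H.card + 1 := Finset.card_insert_of_notMem hgH
    have hmono : ∀ j ∈ l, F (insert g H) j ≤ F H j := by
      intro j hj
      simp only [hF]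
      apply mul_le_mul_of_nonneg_left _ (mul_nonneg (h0 j hj) (Real.exp_pos _).le)
      apply pow_le_pow_of_le_one (by norm_num) (by norm_num)
      exact Finset.card_le_card (Finset.inter_subset_inter_right (Finset.subset_insert _ _))
    have hdrop : F (insert g H) i + 3 / 4 ≤ F H i := by
      have h2 : (insert g H) ∩ V i = insert g (H ∩ V i) := Finset.insert_inter_of_mem hg
      have h3 : g ∉ H ∩ V i := fun h => hgH (Finset.mem_inter.mp h).1
      have h4 : F (insert g H) i = F H i * (1 / 4) := by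
        simp only [hF]
        rw [h2, Finset.card_insert_of_notMem h3, pow_succ]
        ring
      rw [h4]; linarith
    have hsum := list_sum_drop l _ _ _ hmono hi hdrop
    have hmem : insert g H ∈
        Q.powerset.filter fun H => (l.map (F H)).sum + 3 / 4 * ((H.card : ℝ) - 1) ≤ X := by
      rw [Finset.mem_filter, Finset.mem_powerset]
      refine ⟨Finset.insert_subset (hV i hi hg) hH.1, ?_⟩
      rw [hcard]
      push_cast
      linarith [hH.2]
    have := hmax _ hmem
    omega

/-- `4 ^ (t + 1) ≤ exp (3/4 (9 t - 5))`. -/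
theorem exp_bound (t : ℕ) (ht : 1 ≤ t) :
    (4 : ℝ) ^ (t + 1) ≤ Real.exp (3 / 4 * (9 * (t : ℝ) - 5)) := by
  induction t, ht using Nat.le_induction with
  | base =>
    have h1 := Real.exp_one_gt_d9
    have h2 : Real.exp (3 / 4 * (9 * ((1 : ℕ) : ℝ) - 5)) = Real.exp 1 ^ 3 := by
      rw [← Real.exp_nat_mul]; congr 1; norm_num
    rw [h2]
    have h3 : (2.7 : ℝ) ^ 3 ≤ Real.exp 1 ^ 3 := pow_le_pow_left₀ (by norm_num) (by linarith) 3
    norm_num at h3 ⊢
    linarith
  | succ t _ ih =>
    have h1 : Real.exp (3 / 4 * (9 * ((t + 1 : ℕ) : ℝ) - 5)) =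
        Real.exp (3 / 4 * (9 * (t : ℝ) - 5)) * Real.exp (27 / 4) := by
      rw [← Real.exp_add]; congr 1; push_cast; ring
    have h2 : (4 : ℝ) ≤ Real.exp (27 / 4) := by
      have := Real.add_one_le_exp (27 / 4 : ℝ)
      linarith
    rw [h1, pow_succ]
    exact mul_le_mul ih h2 (by norm_num) (Real.exp_pos _).le

end Pool.Agent.MP4d246d.Gain
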