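import Pool.Agent.Lib.MP_4d246d_lc.Gain.Seg

/-!
# Histories and legs
-/

namespace Pool.Agent.MP4d246d.Gain

variable {n : ℕ}

/-- A number in `[0, 1/2)` that identifies the vertex. -/
noncomputable def eps (y : Vertex n) : ℝ :=
  ((Fintype.equivFin (Vertex n) y : ℕ) : ℝ) / (2 * (Fintype.card (Vertex n) : ℝ))

theorem card_vertex_pos : (0 : ℝ) < (Fintype.card (Vertex n) : ℝ) := by
  have : 0 < Fintype.card (Vertex n) := Fintype.card_pos
  exact_mod_cast this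

theorem eps_nonneg (y : Vertex n) : 0 ≤ eps y := by
  have := card_vertex_pos (n := n)
  unfold eps; positivity

theorem eps_lt (y : Vertex n) : eps y < 1 / 2 := by
  have h0 := card_vertex_pos (n := n)
  have h1 : ((Fintype.equivFin (Vertex n) y : ℕ)) < Fintype.card (Vertex n) :=
    (Fintype.equivFin (Vertex n) y).2
  have h2 : (((Fintype.equivFin (Vertex n) y : ℕ)) : ℝ) < (Fintype.card (Vertex n) : ℝ) := by
    exact_mod_cast h1
  rw [eps, div_lt_iff₀ (by positivity)]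
  linarith

theorem eps_inj {y z : Vertex n} (h : eps y = eps z) : y = z := by
  have h0 := card_vertex_pos (n := n)
  rw [eps, eps, div_left_inj' (by positivity)] at h
  have h1 : ((Fintype.equivFin (Vertex n) y : ℕ)) = (Fintype.equivFin (Vertex n) z : ℕ) := by
    exact_mod_cast h
  exact (Fintype.equivFin (Vertex n)).injective (Fin.ext h1)

/-- What the adversary shows at `u` at time `τ`: the value `τ + ε(u)`, the improving set `S`, the
values `τ + 1 + ε(z)` at the improving neighbours `z`. -/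
noncomputable def shown (τ : ℕ) (u : Vertex n) (S : Finset (Fin n)) : Entry n :=
  (u, (τ : ℝ) + eps u, fun c => if c ∈ S then 1 + eps (nb u c) - eps u else 0)

/-- `Hist ρ v₀ l p`: the rule `ρ`, started at `v₀`, has seen `l` and has just moved to `p`. -/
inductive Hist (ρ : PivotRule n) (v₀ : Vertex n) : History n → Vertex n → Prop
  | nil : Hist ρ v₀ [] v₀
  | cons {l : History n} {u : Vertex n} {S : Finset (Fin n)} : Hist ρ v₀ l u → S.Nonempty →
      Hist ρ v₀ (shown l.length u S :: l) (nb u (ρ.pick (shown l.length u S :: l)))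

theorem shown_pos {τ : ℕ} {u : Vertex n} {S : Finset (Fin n)} {c : Fin n} :
    0 < (shown τ u S).2.2 c ↔ c ∈ S := by
  show 0 < (if c ∈ S then 1 + eps (nb u c) - eps u else 0) ↔ c ∈ S
  by_cases hc : c ∈ S
  · have h1 := eps_nonneg (nb u c)
    have h2 := eps_lt u
    simp only [hc, if_true, iff_true]
    linarith
  · simp [hc]

theorem pick_mem (ρ : PivotRule n) (τ : ℕ) (u : Vertex n) (S : Finset (Fin n)) (l : History n)
    (hS : S.Nonempty) : ρ.pick (shown τ u S :: l) ∈ S := by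
  obtain ⟨c, hc⟩ := hS
  have h := ρ.pick_pos (shown τ u S).1 (shown τ u S).2.1 (shown τ u S).2.2 l
    ⟨c, shown_pos.mpr hc⟩
  exact shown_pos.mp h

theorem flipOn_insert {Q : Finset (Fin n)} {q : Vertex n} {c : Fin n} (hc : c ∉ Q) :
    nb (flipOn Q q) c = flipOn (insert c Q) q := by
  funext b
  by_cases hbc : b = c
  · subst hbc
    rw [nb_self, flipOn_notMem hc, flipOn_mem (Finset.mem_insert_self _ _)]
  · rw [nb_ne _ hbc]
    by_cases hb : b ∈ Q
    · rw [flipOn_mem hb, flipOn_mem (Finset.mem_insert_of_mem hb)]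
    · rw [flipOn_notMem hb, flipOn_notMem (by simp [hbc, hb])]

theorem hist_step (ρ : PivotRule n) (v₀ : Vertex n) (H : Finset (Fin n)) (p : Vertex n)
    (l : History n) (Q : Finset (Fin n)) (hl : Hist ρ v₀ l (flipOn Q p))
    (hcard : H.card + Q.card < n) :
    ∃ c, c ∉ H ∧ c ∉ Q ∧
      Hist ρ v₀ (shown l.length (flipOn Q p) (H ∪ Q)ᶜ :: l) (flipOn (insert c Q) p) := by
  have hS : ((H ∪ Q)ᶜ).Nonempty := by
    rw [← Finset.card_pos, Finset.card_compl, Fintype.card_fin]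
    have := Finset.card_union_le H Q
    omega
  have h1 := Hist.cons hl hS
  have h2 := pick_mem ρ l.length (flipOn Q p) (H ∪ Q)ᶜ l hS
  set c := ρ.pick (shown l.length (flipOn Q p) (H ∪ Q)ᶜ :: l) with hc
  simp only [Finset.mem_compl, Finset.mem_union, not_or] at h2
  refine ⟨c, h2.1, h2.2, ?_⟩
  rw [flipOn_insert h2.2] at h1
  exact h1

theorem flipOn_empty (p : Vertex n) : flipOn ∅ p = p := by
  funext b; simp [flipOn]

theorem leg_aux (ρ : PivotRule n) (v₀ : Vertex n) (H : Finset (Fin n)) (p : Vertex n)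
    (l : History n) (hl : Hist ρ v₀ l p) :
    ∀ M, H.card + M ≤ n → ∃ (new : History n) (Q : Finset (Fin n)),
      Hist ρ v₀ (new ++ l) (flipOn Q p) ∧ Q.card = M ∧ Disjoint Q H ∧ new.length = M ∧
      ∀ e ∈ new, ∃ R ⊆ Q, e = shown (l.length + R.card) (flipOn R p) (H ∪ R)ᶜ := by
  intro M
  induction M with
  | zero =>
    intro _
    refine ⟨[], ∅, ?_, rfl, by simp, rfl, by simp⟩
    rw [flipOn_empty]; simpa using hl
  | succ M ih =>
    intro hM
    obtain ⟨new, Q, h1, h2, h3, h4, h5⟩ := ih (by omega)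
    obtain ⟨c, hcH, hcQ, h6⟩ := hist_step ρ v₀ H p (new ++ l) Q h1 (by omega)
    refine ⟨shown (new ++ l).length (flipOn Q p) (H ∪ Q)ᶜ :: new, insert c Q, h6, ?_, ?_, ?_, ?_⟩
    · rw [Finset.card_insert_of_notMem hcQ, h2]
    · rw [Finset.disjoint_insert_left]; exact ⟨hcH, h3⟩
    · simp [h4]
    · intro e he
      rcases List.mem_cons.mp he with rfl | he
      · refine ⟨Q, Finset.subset_insert _ _, ?_⟩
        rw [List.length_append, h4, h2, Nat.add_comm]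
      · obtain ⟨R, hR, h7⟩ := h5 e he
        exact ⟨R, hR.trans (Finset.subset_insert _ _), h7⟩

/-- A leg of `M + 2` steps with closed directions `H`; `c₁` is the last flipped direction, `c₂` the
one before. -/
theorem leg (ρ : PivotRule n) (v₀ : Vertex n) (H : Finset (Fin n)) (p : Vertex n)
    (l : History n) (hl : Hist ρ v₀ l p) (M : ℕ) (hM : H.card + (M + 2) ≤ n) :
    ∃ (new : History n) (Q : Finset (Fin n)) (c₁ c₂ : Fin n),
      Hist ρ v₀ (new ++ l) (flipOn Q p) ∧ Q.card = M + 2 ∧ Disjoint Q H ∧ new.length = M + 2 ∧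
      c₁ ∈ Q ∧ c₂ ∈ Q ∧ c₁ ≠ c₂ ∧
      ∀ e ∈ new, ∃ R ⊆ Q, e = shown (l.length + R.card) (flipOn R p) (H ∪ R)ᶜ ∧ c₁ ∉ R ∧
        (c₂ ∈ R → R = Q.erase c₁) := by
  obtain ⟨new, Q, h1, h2, h3, h4, h5⟩ := leg_aux ρ v₀ H p l hl M (by omega)
  obtain ⟨c₂, hc₂H, hc₂Q, h6⟩ := hist_step ρ v₀ H p (new ++ l) Q h1 (by omega)
  have hcard : (insert c₂ Q).card = M + 1 := by rw [Finset.card_insert_of_notMem hc₂Q, h2]
  obtain ⟨c₁, hc₁H, hc₁Q, h7⟩ := hist_step ρ v₀ H p _ (insert c₂ Q) h6 (by omega)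
  refine ⟨_ :: (shown (new ++ l).length (flipOn Q p) (H ∪ Q)ᶜ :: new), insert c₁ (insert c₂ Q),
    c₁, c₂, h7, ?_, ?_, ?_, by simp, by simp, ?_, ?_⟩
  · rw [Finset.card_insert_of_notMem hc₁Q, hcard]
  · rw [Finset.disjoint_insert_left, Finset.disjoint_insert_left]; exact ⟨hc₁H, hc₂H, h3⟩
  · simp [h4]
  · rintro rfl; exact hc₁Q (Finset.mem_insert_self _ _)
  · intro e he
    rcases List.mem_cons.mp he with rfl | he
    · refine ⟨insert c₂ Q, Finset.subset_insert _ _, ?_, hc₁Q, ?_⟩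
      · rw [List.length_cons, List.length_append, h4, hcard]
        congr 1
        omega
      · intro _
        rw [Finset.erase_insert hc₁Q]
    rcases List.mem_cons.mp he with rfl | he
    · refine ⟨Q, (Finset.subset_insert _ _).trans (Finset.subset_insert _ _), ?_, ?_, ?_⟩
      · rw [List.length_append, h4, h2, Nat.add_comm]
      · exact fun h => hc₁Q (Finset.mem_insert_of_mem h)
      · exact fun h => absurd h hc₂Q
    · obtain ⟨R, hR, h8⟩ := h5 e he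
      refine ⟨R, hR.trans ((Finset.subset_insert _ _).trans (Finset.subset_insert _ _)), h8, ?_, ?_⟩
      · exact fun h => hc₁Q (Finset.mem_insert_of_mem (hR h))
      · exact fun h => absurd (hR h) hc₂Q

/-- The entry `e` is explained by the marks `𝒱` and the end `x', T'`. -/
def Expl (𝒱 : Set (Mark n)) (x' : Vertex n) (T' : ℝ) (e : Entry n) : Prop :=
  ∃ (τ : ℕ) (u : Vertex n) (S : Finset (Fin n)), e = shown τ u S ∧
    (∃ g, (⟨u, g, τ⟩ : Mark n) ∈ 𝒱 ∧ ∀ c, c ∈ S ↔ g c ≠ u c) ∧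
    ∀ c ∈ S, (∃ g, (⟨nb u c, g, τ + 1⟩ : Mark n) ∈ 𝒱) ∨ (nb u c = x' ∧ T' = τ + 1)

/-- The start of a segment is a mark, unless the segment is empty. -/
def Start (𝒱 : Set (Mark n)) (x : Vertex n) (T : ℝ) (x' : Vertex n) (T' : ℝ) : Prop :=
  (x' = x ∧ T' = T) ∨ ∃ g, (⟨x, g, T⟩ : Mark n) ∈ 𝒱

theorem Expl.append {𝒱₁ 𝒱₂ : Set (Mark n)} {x₁ x₂ : Vertex n} {T₁ T₂ : ℝ} {e : Entry n}
    (h : Expl 𝒱₁ x₁ T₁ e) (hs : Start 𝒱₂ x₁ T₁ x₂ T₂) : Expl (𝒱₁ ∪ 𝒱₂) x₂ T₂ e := by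
  obtain ⟨τ, u, S, h1, ⟨g, h2, h3⟩, h4⟩ := h
  refine ⟨τ, u, S, h1, ⟨g, Or.inl h2, h3⟩, ?_⟩
  intro c hc
  rcases h4 c hc with ⟨g', h5⟩ | ⟨h5, h6⟩
  · exact Or.inl ⟨g', Or.inl h5⟩
  · rcases hs with ⟨h7, h8⟩ | ⟨g', h7⟩
    · right; exact ⟨by rw [h5, h7], by rw [h8, h6]⟩
    · left; exact ⟨g', Or.inr (by rw [h5, ← h6]; exact h7)⟩

theorem Expl.right {𝒱₁ 𝒱₂ : Set (Mark n)} {x₂ : Vertex n} {T₂ : ℝ} {e : Entry n}
    (h : Expl 𝒱₂ x₂ T₂ e) : Expl (𝒱₁ ∪ 𝒱₂) x₂ T₂ e := by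
  obtain ⟨τ, u, S, h1, ⟨g, h2, h3⟩, h4⟩ := h
  refine ⟨τ, u, S, h1, ⟨g, Or.inr h2, h3⟩, ?_⟩
  intro c hc
  rcases h4 c hc with ⟨g', h5⟩ | h5
  · exact Or.inl ⟨g', Or.inr h5⟩
  · exact Or.inr h5

theorem Start.append {𝒱₁ 𝒱₂ : Set (Mark n)} {x x₁ x₂ : Vertex n} {T T₁ T₂ : ℝ}
    (h₁ : Start 𝒱₁ x T x₁ T₁) (h₂ : Start 𝒱₂ x₁ T₁ x₂ T₂) : Start (𝒱₁ ∪ 𝒱₂) x T x₂ T₂ := by
  rcases h₁ with ⟨rfl, rfl⟩ | ⟨g, h⟩
  · rcases h₂ with ⟨rfl, rfl⟩ | ⟨g, h⟩
    · exact Or.inl ⟨rfl, rfl⟩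
    · exact Or.inr ⟨g, Or.inr h⟩
  · exact Or.inr ⟨g, Or.inl h⟩

theorem leg_start (A : Finset (Fin n)) (q : Vertex n) (T : ℝ) (Q B : Finset (Fin n))
    (hB : B.Nonempty) (x' : Vertex n) (T' : ℝ) : Start (legMarks A q T Q B) q T x' T' := by
  right
  obtain ⟨b, hb⟩ := hB
  refine ⟨tgt A q, ?_, rfl, ?_⟩
  · exact ⟨fun _ _ => rfl, ⟨b, fun _ _ _ _ => rfl⟩, b, hb, rfl⟩
  · show T = T + dist q q
    rw [dist_self]; simp

theorem leg_expl {A : Finset (Fin n)} {q : Vertex n} {t : ℕ} {Q B R : Finset (Fin n)}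
    {c₁ c₂ : Fin n} (hQA : Disjoint Q A) (hRQ : R ⊆ Q) (h₁B : c₁ ∈ B) (h₂B : c₂ ∈ B)
    (h₁Q : c₁ ∈ Q) (hne : c₁ ≠ c₂) (h₁R : c₁ ∉ R) (h₂R : c₂ ∈ R → R = Q.erase c₁) {e : Entry n}
    (he : e = shown (t + R.card) (flipOn R q) (A ∪ R)ᶜ) :
    Expl (legMarks A q t Q B) (flipOn Q q) ((t : ℝ) + Q.card) e := by
  classical
  have hRA : ∀ b ∈ A, b ∉ R := fun b hb hbR => (Finset.disjoint_left.mp hQA) (hRQ hbR) hb
  refine ⟨t + R.card, flipOn R q, (A ∪ R)ᶜ, he, ⟨tgt A q, ⟨⟨?_, ⟨c₁, ?_⟩, c₁, h₁B, ?_⟩, rfl, ?_⟩,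
    ?_⟩, ?_⟩
  · intro b hb; exact flipOn_notMem (hRA b hb)
  · intro c _ hcQ _; exact flipOn_notMem fun h => hcQ (hRQ h)
  · exact flipOn_notMem h₁R
  · show ((t + R.card : ℕ) : ℝ) = t + dist (flipOn R q) q
    rw [dist_flipOn]; push_cast; ring
  · intro c
    simp only [Finset.mem_compl, Finset.mem_union, not_or]
    by_cases hcA : c ∈ A
    · rw [tgt_mem hcA, flipOn_notMem (hRA c hcA)]; simp [hcA]
    · rw [tgt_notMem hcA]
      by_cases hcR : c ∈ R
      · rw [flipOn_mem hcR]; simp [hcR]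
      · rw [flipOn_notMem hcR]
        simp [hcA, hcR]
  · intro c hc
    simp only [Finset.mem_compl, Finset.mem_union, not_or] at hc
    obtain ⟨hcA, hcR⟩ := hc
    have hnb : nb (flipOn R q) c = flipOn (insert c R) q := flipOn_insert hcR
    have hcard : (insert c R).card = R.card + 1 := Finset.card_insert_of_notMem hcR
    -- a coordinate of `B` that is not flipped
    by_cases hex : ∃ b ∈ B, b ∉ insert c R
    · left
      obtain ⟨b, hbB, hb⟩ := hex
      refine ⟨tgt A q, ⟨?_, ⟨c, ?_⟩, b, hbB, ?_⟩, rfl, ?_⟩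
      · intro a ha
        show nb (flipOn R q) c a = q a
        rw [hnb]
        apply flipOn_notMem
        rw [Finset.mem_insert, not_or]
        exact ⟨fun h => hcA (h ▸ ha), hRA a ha⟩
      · intro a haA haQ hac
        show nb (flipOn R q) c a = q a
        rw [hnb]
        apply flipOn_notMem
        rw [Finset.mem_insert, not_or]
        exact ⟨hac, fun h => haQ (hRQ h)⟩
      · show nb (flipOn R q) c b = q b
        rw [hnb]; exact flipOn_notMem hb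
      · show (((t + R.card : ℕ) : ℝ) + 1) = t + dist (nb (flipOn R q) c) q
        rw [hnb, dist_flipOn, hcard]; push_cast; ring
    · right
      push Not at hex
      have hc1 : c₁ = c := by
        have := hex c₁ h₁B
        rw [Finset.mem_insert] at this
        exact this.resolve_right h₁R
      have hc2 : c₂ ∈ R := by
        have := hex c₂ h₂B
        rw [Finset.mem_insert] at this
        rcases this with h | h
        · exact absurd (hc1.trans h.symm) hne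
        · exact h
      have hR := h₂R hc2
      have hins : insert c R = Q := by rw [hR, ← hc1]; exact Finset.insert_erase h₁Q
      refine ⟨by rw [hnb, hins], ?_⟩
      rw [← hins, hcard]; push_cast; ring

end Pool.Agent.MP4d246d.Gain
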