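import Pool.Agent.Lib.MP_4d246d_lc.Gain.Super

/-!
# The adversary
-/

namespace Pool.Agent.MP4d246d.Gain

variable {n : ℕ}

/-- The outcome of at least `2^k - 1` pivots from `p` with closed set `A`. -/
structure Played (ρ : PivotRule n) (v₀ : Vertex n) (E : Finset (Fin n)) (h u k : ℕ)
    (l : History n) (p : Vertex n) (A : Finset (Fin n))
    (new : History n) (p' : Vertex n) (A' : Finset (Fin n)) (𝒱 : Set (Mark n)) (𝒦 : Set (Con n))
    (𝓛 : List (Rec n)) : Prop where
  hist : Hist ρ v₀ (new ++ l) p'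
  len : 2 ^ k ≤ new.length + 1
  seg : Seg A p (l.length : ℝ) A' p' ((new.length : ℝ) + l.length) 𝒱 𝒦 ∅
  card : (A' \ A).card ≤ k * (66 * h)
  expl : ∀ e ∈ new, Expl 𝒱 p' ((new.length : ℝ) + l.length) e
  start : Start 𝒱 p (l.length : ℝ) p' ((new.length : ℝ) + l.length)
  recs : (𝓛.map fun r => (1 / 4 : ℝ) ^ (k - r.lev)).sum ≤ 9 * h
  rec_lev : ∀ r ∈ 𝓛, r.lev < k
  rec_sub : ∀ r ∈ 𝓛, A ⊆ r.Z
  rec_Z : ∀ r ∈ 𝓛, (r.Z \ E).card ≤ u + 2 + 6 * u * r.lev
  rec_U : ∀ r ∈ 𝓛, r.U.card ≤ (k + 1) * (66 * h)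
  cover : ∀ κ ∈ 𝒦, ∃ r ∈ 𝓛, Covers r κ

theorem play (ρ : PivotRule n) (v₀ : Vertex n) (E : Finset (Fin n)) (h u : ℕ) (hh : 1 ≤ h)
    (hu : u = h * (66 * h)) (hE : Eᶜ.card = 6 * h * u) :
    ∀ (k : ℕ) (l : History n) (p : Vertex n) (A : Finset (Fin n)), Hist ρ v₀ l p → E ⊆ A →
      (A \ E).card + k * (66 * h) ≤ u →
      ∃ (new : History n) (p' : Vertex n) (A' : Finset (Fin n)) (𝒱 : Set (Mark n))
        (𝒦 : Set (Con n)) (𝓛 : List (Rec n)), Played ρ v₀ E h u k l p A new p' A' 𝒱 𝒦 𝓛 := by
  classical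
  intro k
  induction k with
  | zero =>
    intro l p A hl hEA _
    refine ⟨[], p, A, ∅, ∅, [], ?_⟩
    constructor
    · simpa using hl
    · simp
    · simpa using seg_empty A p (l.length : ℝ)
    · simp
    · simp
    · left; simp
    · simp
    · simp
    · simp
    · simp
    · simp
    · simp
  | succ k ih =>
    intro l p A hl hEA hbud
    have hkh : k + 1 ≤ h := by
      have : (k + 1) * (66 * h) ≤ h * (66 * h) := by rw [← hu]; omega
      exact Nat.le_of_mul_le_mul_right this (by omega)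
    have hbud' : (A \ E).card + k * (66 * h) + 66 * h ≤ u := by
      have : (k + 1) * (66 * h) = k * (66 * h) + 66 * h := by ring
      omega
    -- first part
    obtain ⟨new₁, p₁, A₁, 𝒱₁, 𝒦₁, 𝓛₁, P₁⟩ := ih l p A hl hEA (by omega)
    have hAA₁ : A ⊆ A₁ := P₁.seg.sub
    have hA₁E : (A₁ \ E).card + 66 * h ≤ u := by
      have h1 : A₁ \ E ⊆ (A \ E) ∪ (A₁ \ A) := by
        intro c hc
        simp only [Finset.mem_sdiff, Finset.mem_union] at hc ⊢
        tauto
      have h2 := Finset.card_le_card h1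
      have h3 := Finset.card_union_le (A \ E) (A₁ \ A)
      have h4 := P₁.card
      omega
    -- the long legs
    obtain ⟨new₂, x, B, 𝒱₂, 𝒦₂, 𝓝, α, S, hits⟩ := super ρ v₀ E h u k hh hu hE hkh (new₁ ++ l) p₁
      P₁.hist A₁ (hEA.trans hAA₁) hA₁E 𝓛₁ P₁.rec_lev P₁.rec_Z
      (fun r hr => hEA.trans (P₁.rec_sub r hr))
      (fun r hr => (P₁.rec_U r hr).trans (by rw [hu]; exact Nat.mul_le_mul_right _ hkh)) P₁.recs
    have hBcard := S.card le_rfl
    have hT₁ : (((new₁ ++ l).length : ℕ) : ℝ) = (new₁.length : ℝ) + l.length := by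
      rw [List.length_append]; push_cast; ring
    set T₂ : ℝ := (new₂.length : ℝ) + ((new₁ ++ l).length : ℕ) with hT₂
    have hseg₂ : Seg A₁ p₁ ((new₁.length : ℝ) + l.length) (A₁ ∪ B) x T₂ 𝒱₂ 𝒦₂ B := by
      rw [← hT₁]; exact S.seg
    have hseg₁₂ := seg_compose P₁.seg hseg₂ B fun b hb => Or.inl hb
    have hT : (l.length : ℝ) + 1 ≤ T₂ := by
      have h1 := S.len
      have h2 : 1 ≤ new₂.length := by omega
      have h3 : (1 : ℝ) ≤ new₂.length := by exact_mod_cast h2
      rw [hT₂, hT₁]
      have h4 : (0 : ℝ) ≤ new₁.length := Nat.cast_nonneg _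
      linarith
    have hrel := seg_release hseg₁₂ hT B subset_rfl (by
      rintro κ (hκ | hκ)
      · obtain ⟨r, hr, hrκ⟩ := P₁.cover κ hκ
        exact hrκ.sees (hits r hr)
      · exact S.see κ hκ)
    -- second part
    have hABE : ((A ∪ B) \ E).card + k * (66 * h) ≤ u := by
      have h1 : (A ∪ B) \ E ⊆ (A \ E) ∪ B := by
        intro c hc
        simp only [Finset.mem_sdiff, Finset.mem_union] at hc ⊢
        tauto
      have h2 := Finset.card_le_card h1
      have h3 := Finset.card_union_le (A \ E) B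
      omega
    obtain ⟨new₃, p₃, A₃, 𝒱₃, 𝒦₃, 𝓛₃, P₃⟩ := ih (new₂ ++ (new₁ ++ l)) x (A ∪ B) S.hist
      (hEA.trans Finset.subset_union_left) hABE
    have hT₂' : (((new₂ ++ (new₁ ++ l)).length : ℕ) : ℝ) = T₂ := by
      rw [List.length_append, hT₂]; push_cast; ring
    have hseg₃ := P₃.seg
    rw [hT₂'] at hseg₃
    have hall := seg_compose hrel hseg₃ ∅ (by simp)
    have hT₃ : (((new₃ ++ (new₂ ++ new₁)).length : ℕ) : ℝ) + l.length =
        (new₃.length : ℝ) + T₂ := by
      rw [List.length_append, List.length_append, hT₂, List.length_append]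
      push_cast; ring
    have hstart₂ : Start 𝒱₂ p₁ ((new₁.length : ℝ) + l.length) x T₂ := by
      have := S.start
      rw [hT₁] at this
      rw [hT₂, hT₁]; exact this
    have hstart₃ := P₃.start
    rw [hT₂'] at hstart₃
    set f : Rec n → Rec n := fun r => ⟨r.q, r.Z, r.U ∪ forb B x, r.lev⟩ with hf
    have hfU : ∀ r, (f r).U.card ≤ r.U.card + 66 * h := by
      intro r
      have h1 := Finset.card_union_le r.U (forb B x)
      have h2 := forb_card B x
      show (r.U ∪ forb B x).card ≤ _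
      omega
    refine ⟨new₃ ++ (new₂ ++ new₁), p₃, A₃, (𝒱₁ ∪ 𝒱₂) ∪ 𝒱₃,
      relCons (𝒦₁ ∪ 𝒦₂) B x (A₁ ∪ B) ∪ 𝒦₃, (𝓛₁ ++ 𝓝).map f ++ 𝓛₃, ?_⟩
    constructor
    · -- hist
      have := P₃.hist
      simpa [List.append_assoc] using this
    · -- len
      have h1 := P₁.len
      have h2 := S.len
      have h3 := P₃.len
      have h4 : 2 ^ (k + 1) = 2 ^ k + 2 ^ k := by ring
      simp only [List.length_append]
      omega
    · rw [hT₃]; exact hall
    · -- card
      have h1 : A₃ \ A ⊆ (A₃ \ (A ∪ B)) ∪ B := by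
        intro c hc
        simp only [Finset.mem_sdiff, Finset.mem_union] at hc ⊢
        tauto
      have h2 := Finset.card_le_card h1
      have h3 := Finset.card_union_le (A₃ \ (A ∪ B)) B
      have h4 := P₃.card
      have h5 : (k + 1) * (66 * h) = k * (66 * h) + 66 * h := by ring
      omega
    · -- explanations
      intro e he
      rw [hT₃]
      rcases List.mem_append.mp he with he | he
      · have h1 := P₃.expl e he
        rw [hT₂'] at h1
        exact h1.right
      rcases List.mem_append.mp he with he | he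
      · have h1 := (S.expl e he).right (𝒱₁ := 𝒱₁)
        exact h1.append hstart₃
      · have h1 := (P₁.expl e he).append hstart₂
        exact h1.append hstart₃
    · rw [hT₃]
      exact (P₁.start.append hstart₂).append hstart₃
    · -- weights of the records
      have key : ∀ l : List (Rec n), (∀ r ∈ l, r.lev < k) →
          (l.map fun r => (1 / 4 : ℝ) ^ (k + 1 - r.lev)).sum =
            1 / 4 * (l.map fun r => (1 / 4 : ℝ) ^ (k - r.lev)).sum := by
        intro l hl
        rw [← List.sum_map_mul_left]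
        congr 1
        apply List.map_congr_left
        intro r hr
        have : k + 1 - r.lev = (k - r.lev) + 1 := by have := hl r hr; omega
        rw [this, pow_succ, mul_comm]
      have h1 := P₁.recs
      have h3 := P₃.recs
      have h2 : (𝓝.map fun r => (1 / 4 : ℝ) ^ (k + 1 - r.lev)).sum = 18 * h * (1 / 4) := by
        have e1 : (𝓝.map fun r => (1 / 4 : ℝ) ^ (k + 1 - r.lev)) = 𝓝.map fun _ => (1 / 4 : ℝ) := by
          apply List.map_congr_left
          intro r hr
          rw [S.rec_lev r hr]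
          have : k + 1 - k = 1 := by omega
          rw [this, pow_one]
        rw [e1, List.map_const', List.sum_replicate, S.recs_len, nsmul_eq_mul]
        push_cast; ring
      rw [List.map_append, List.sum_append, key 𝓛₃ P₃.rec_lev, List.map_map]
      have h4 : ((𝓛₁ ++ 𝓝).map ((fun r : Rec n => (1 / 4 : ℝ) ^ (k + 1 - r.lev)) ∘ f)).sum =
          ((𝓛₁ ++ 𝓝).map fun r : Rec n => (1 / 4 : ℝ) ^ (k + 1 - r.lev)).sum := rfl
      rw [h4, List.map_append, List.sum_append, h2, key 𝓛₁ P₁.rec_lev]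
      linarith
    · -- levels
      intro r hr
      rcases List.mem_append.mp hr with hr | hr
      · obtain ⟨r₁, hr₁, rfl⟩ := List.mem_map.mp hr
        show r₁.lev < k + 1
        rcases List.mem_append.mp hr₁ with hr₁ | hr₁
        · have := P₁.rec_lev r₁ hr₁
          omega
        · have := S.rec_lev r₁ hr₁
          omega
      · have := P₃.rec_lev r hr
        omega
    · -- closed sets of records
      intro r hr
      rcases List.mem_append.mp hr with hr | hr
      · obtain ⟨r₁, hr₁, rfl⟩ := List.mem_map.mp hr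
        show A ⊆ r₁.Z
        rcases List.mem_append.mp hr₁ with hr₁ | hr₁
        · exact P₁.rec_sub r₁ hr₁
        · exact hAA₁.trans (S.rec_sub r₁ hr₁)
      · exact Finset.subset_union_left.trans (P₃.rec_sub r hr)
    · intro r hr
      rcases List.mem_append.mp hr with hr | hr
      · obtain ⟨r₁, hr₁, rfl⟩ := List.mem_map.mp hr
        show (r₁.Z \ E).card ≤ u + 2 + 6 * u * r₁.lev
        rcases List.mem_append.mp hr₁ with hr₁ | hr₁
        · exact P₁.rec_Z r₁ hr₁
        · rw [S.rec_lev r₁ hr₁]; exact S.rec_Z r₁ hr₁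
      · exact P₃.rec_Z r hr
    · intro r hr
      have h5 : (k + 1 + 1) * (66 * h) = (k + 1) * (66 * h) + 66 * h := by ring
      have h6 : (k + 1) * (66 * h) = k * (66 * h) + 66 * h := by ring
      rcases List.mem_append.mp hr with hr | hr
      · obtain ⟨r₁, hr₁, rfl⟩ := List.mem_map.mp hr
        have h7 := hfU r₁
        rcases List.mem_append.mp hr₁ with hr₁ | hr₁
        · have := P₁.rec_U r₁ hr₁
          omega
        · have := S.rec_U r₁ hr₁
          omega
      · have := P₃.rec_U r hr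
        omega
    · -- every constraint belongs to a record
      rintro κ ((⟨κ₀, hκ₀, h1, h2, h3⟩ | ⟨h1, h2, h3⟩) | hκ)
      · have hex : ∃ r ∈ 𝓛₁ ++ 𝓝, Covers r κ₀ := by
          rcases hκ₀ with hκ₀ | hκ₀
          · obtain ⟨r, hr, h⟩ := P₁.cover κ₀ hκ₀
            exact ⟨r, List.mem_append_left _ hr, h⟩
          · obtain ⟨r, hr, h⟩ := S.cover κ₀ hκ₀
            exact ⟨r, List.mem_append_right _ hr, h⟩
        obtain ⟨r, hr, h4, c₀, h5⟩ := hex
        refine ⟨f r, List.mem_append_left _ (List.mem_map.mpr ⟨r, hr, rfl⟩), ?_, c₀, ?_⟩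
        · rw [h3]
          exact Finset.union_subset_union_left h4
        · intro c hc hcc
          rw [h1, h2]; exact h5 c hc hcc
      · obtain ⟨r, hr, h4, c₀, h5⟩ := S.last (by omega)
        refine ⟨f r, List.mem_append_left _ (List.mem_map.mpr ⟨r, List.mem_append_right _ hr, rfl⟩),
          ?_, c₀, ?_⟩
        · rw [h3]; simp
        · intro c hc hcc
          rw [h1, h2]; exact h5 c hc hcc
      · obtain ⟨r, hr, hrc⟩ := P₃.cover κ hκ
        exact ⟨r, List.mem_append_right _ hr, hrc⟩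

end Pool.Agent.MP4d246d.Gain
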