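import Pool.Agent.Lib.MP_4d246d_lc.Gain.Final

/-!
# Every deterministic pivot rule with memory is slow on abstract cubes, even if it sees all gains

For every deterministic pivot rule on the `n`-cube, which may use the whole history (all visited
vertices, their objective values, and the objective values of all their improving neighbours) in an
arbitrary way, and every start vertex there is an abstract objective function (acyclic unique sink
orientation) on which the rule makes at least `2^h - 1` pivots, whenever `n ≥ 396 h³`.
-/

namespace Pool.Agent.Results.MP_4d246d_lc.GainRules

open Pool.Agent.MP4d246d.Gain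

theorem result (h n : ℕ) (hn : 396 * h ^ 3 ≤ n) (ρ : PivotRule n) (v₀ : Vertex n) :
    ∃ f : Vertex n → ℝ, AbstractObjective f ∧ (run ρ f v₀ (2 ^ h - 1)).length = 2 ^ h :=
  main h n hn ρ v₀

end Pool.Agent.Results.MP_4d246d_lc.GainRules
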