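import Pool.Agent.Lib.MP_4d246d_lc.Gain.Good

/-!
# Segments: extending a structure on a subcube to the cube around it
-/

namespace Pool.Agent.MP4d246d.Gain

variable {n : ℕ}

/-- A visibility constraint: all faces must be seen from `u`, through a coordinate outside `N`, and
not through a coordinate with a value in `U`. -/
structure Con (n : ℕ) where
  u : Vertex n
  N : Finset (Fin n)
  U : Finset (Fin n × Bool)

def Con.Sees (κ : Con n) (F : Finset (Fin n)) (ω : Vertex n) : Prop :=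
  ∃ b ∈ F, b ∉ κ.N ∧ (b, ω b) ∉ κ.U ∧ κ.u b ≠ ω b

/-- A vertex with prescribed target and potential. -/
structure Mark (n : ℕ) where
  u : Vertex n
  g : Vertex n
  x : ℝ

/-- The values opposite to those of `x'` on `B`. -/
def forb (B : Finset (Fin n)) (x' : Vertex n) : Finset (Fin n × Bool) :=
  B.image fun b => (b, !x' b)

theorem notMem_forb {B : Finset (Fin n)} {x' : Vertex n} {b : Fin n} {a : Bool} :
    (b, a) ∉ forb B x' ↔ (b ∈ B → x' b = a) := by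
  constructor
  · intro h hb
    by_contra hne
    apply h
    rw [forb, Finset.mem_image]
    exact ⟨b, hb, by rw [bool_flip hne]⟩
  · intro h hmem
    rw [forb, Finset.mem_image] at hmem
    obtain ⟨b', hb', heq⟩ := hmem
    simp only [Prod.mk.injEq] at heq
    obtain ⟨rfl, rfl⟩ := heq
    exact bool_not_ne _ (h hb').symm

/-- A segment leads from the subcube `A, x` (source potential `T`) to the smaller subcube `A', x'`
(source potential `T'`). Every good structure on the latter extends to the former, with the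
prescribed targets and potentials at the marks `𝒱`, provided that the constraints `𝒦` are
satisfied. -/
structure Seg (A : Finset (Fin n)) (x : Vertex n) (T : ℝ) (A' : Finset (Fin n)) (x' : Vertex n)
    (T' : ℝ) (𝒱 : Set (Mark n)) (𝒦 : Set (Con n)) (Bk : Finset (Fin n)) : Prop where
  sub : A ⊆ A'
  eq : ∀ b ∈ A, x' b = x b
  start : (A' = A ∧ x' = x ∧ T' = T) ∨ (T + 1 ≤ T' ∧ ∃ κ ∈ 𝒦, κ.u = x)
  conN : ∀ κ ∈ 𝒦, A ⊆ κ.N
  val : ∀ t ∈ 𝒱, t.x ≤ T'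
  bk : ∀ b ∈ Bk, b ∈ A' ∧ b ∉ A
  ext : ∀ (ℱ : Finset (Finset (Fin n))) (ω : Vertex n), (∀ F ∈ ℱ, Disjoint F A) →
    (∀ κ ∈ 𝒦, ∀ F ∈ ℱ, κ.Sees F ω) →
    ∀ (G' : Vertex n → Vertex n) (f' : Vertex n → ℝ), Good A' x' T' (ℱ.image (· \ A')) ω G' f' →
    ∃ (G : Vertex n → Vertex n) (f : Vertex n → ℝ), Good A x T ℱ ω G f ∧
      (∀ y, Dom A' x' (ℱ.image (· \ A')) ω y → G y = G' y ∧ f y = f' y) ∧
      (∀ t ∈ 𝒱, Dom A x ℱ ω t.u ∧ G t.u = t.g ∧ f t.u = t.x) ∧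
      (∀ y, Dom A x ℱ ω y → ∀ b ∈ A', b ∉ A → y b ≠ x' b →
        (∀ F ∈ ℱ, ∃ b' ∈ F, (b' ∉ A' ∨ b' = b) ∧ y b' ≠ ω b') → f y < T' + 1 / 2) ∧
      (∀ b ∈ Bk, Dom A x ℱ ω (nb x' b) →
        (∀ F ∈ ℱ, ∃ b' ∈ F, (b' ∉ A' ∨ b' = b) ∧ nb x' b b' ≠ ω b') → f (nb x' b) < T')

theorem Seg.time {A : Finset (Fin n)} {x : Vertex n} {T : ℝ} {A' : Finset (Fin n)} {x' : Vertex n}
    {T' : ℝ} {𝒱 : Set (Mark n)} {𝒦 : Set (Con n)} {Bk : Finset (Fin n)}
    (h : Seg A x T A' x' T' 𝒱 𝒦 Bk) : T ≤ T' := by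
  rcases h.start with ⟨-, -, h⟩ | ⟨h, -⟩ <;> linarith

theorem seg_empty (A : Finset (Fin n)) (x : Vertex n) (T : ℝ) : Seg A x T A x T ∅ ∅ ∅ := by
  classical
  refine ⟨subset_rfl, fun _ _ => rfl, Or.inl ⟨rfl, rfl, rfl⟩, by simp, by simp, by simp, ?_⟩
  intro ℱ ω hF _ G' f' h
  have himg : ℱ.image (· \ A) = ℱ := by
    have : ℱ.image (· \ A) = ℱ.image id := by
      apply Finset.image_congr
      intro F hF'
      exact Finset.sdiff_eq_self_of_disjoint (hF F hF')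
    rw [this, Finset.image_id]
  rw [himg] at h
  refine ⟨G', f', h, ?_, by simp, ?_, by simp⟩
  · intro y _; exact ⟨rfl, rfl⟩
  · intro y _ b hb hb'; exact absurd hb hb'

/-- The marked vertices of a leg. -/
def legV (A : Finset (Fin n)) (q : Vertex n) (Q B : Finset (Fin n)) : Set (Vertex n) :=
  {y | (∀ b ∈ A, y b = q b) ∧ (∃ c₀, ∀ c, c ∉ A → c ∉ Q → c ≠ c₀ → y c = q c) ∧ ∃ b ∈ B, y b = q b}

def legMarks (A : Finset (Fin n)) (q : Vertex n) (T : ℝ) (Q B : Finset (Fin n)) : Set (Mark n) :=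
  {t | t.u ∈ legV A q Q B ∧ t.g = tgt A q ∧ t.x = T + dist t.u q}

/-- The end of a leg. -/
def flipOn (Q : Finset (Fin n)) (q : Vertex n) : Vertex n := fun b => if b ∈ Q then !q b else q b

theorem flipOn_mem {Q : Finset (Fin n)} {q : Vertex n} {b : Fin n} (hb : b ∈ Q) :
    flipOn Q q b = !q b := by simp [flipOn, hb]

theorem flipOn_notMem {Q : Finset (Fin n)} {q : Vertex n} {b : Fin n} (hb : b ∉ Q) :
    flipOn Q q b = q b := by simp [flipOn, hb]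

def legCons (A : Finset (Fin n)) (q : Vertex n) (Q B : Finset (Fin n)) : Set (Con n) :=
  {κ | κ.u ∈ legV A q Q B ∧ (∀ b, b ∈ κ.N ↔ κ.u b = tgt A q b) ∧ κ.U = forb B (flipOn Q q)}

theorem dist_flipOn (Q : Finset (Fin n)) (q : Vertex n) : dist (flipOn Q q) q = Q.card := by
  classical
  have : (Finset.univ.filter fun c => flipOn Q q c ≠ q c) = Q := by
    ext c
    simp only [Finset.mem_filter, Finset.mem_univ, true_and]
    by_cases hc : c ∈ Q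
    · rw [flipOn_mem hc]; simp [hc]
    · rw [flipOn_notMem hc]; simp [hc]
  rw [dist, this]

theorem legV_dist {A : Finset (Fin n)} {q : Vertex n} {Q B : Finset (Fin n)}
    (hBQ : B ⊆ Q) {y : Vertex n} (hy : y ∈ legV A q Q B) : dist y q ≤ Q.card := by
  classical
  obtain ⟨h1, ⟨c₀, h2⟩, b, hb, h3⟩ := hy
  have hsub : (Finset.univ.filter fun c => y c ≠ q c) ⊆ insert c₀ (Q.erase b) := by
    intro c hc
    simp only [Finset.mem_filter, Finset.mem_univ, true_and] at hc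
    rw [Finset.mem_insert, Finset.mem_erase]
    by_cases hcc : c = c₀
    · left; exact hcc
    · right
      refine ⟨fun h => hc (h ▸ h3), ?_⟩
      by_contra hcQ
      exact hc (h2 c (fun hcA => hc (h1 c hcA)) hcQ hcc)
  have h4 := Finset.card_le_card hsub
  have h5 := Finset.card_insert_le c₀ (Q.erase b)
  have h6 := Finset.card_erase_of_mem (hBQ hb)
  have h7 : 0 < Q.card := Finset.card_pos.mpr ⟨b, hBQ hb⟩
  rw [dist]; omega

theorem leg_seg (A : Finset (Fin n)) (q : Vertex n) (T : ℝ) (Q B : Finset (Fin n))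
    (hQA : Disjoint Q A) (hBQ : B ⊆ Q) (hB : B.Nonempty) :
    Seg A q T (A ∪ B) (flipOn Q q) (T + Q.card) (legMarks A q T Q B) (legCons A q Q B) B := by
  classical
  set x' := flipOn Q q with hx'
  obtain ⟨b₀, hb₀⟩ := hB
  have hBA : Disjoint B A := hQA.mono_left hBQ
  have hQpos : 0 < Q.card := Finset.card_pos.mpr ⟨b₀, hBQ hb₀⟩
  have hQ1 : (1 : ℝ) ≤ Q.card := by exact_mod_cast hQpos
  have hqV : q ∈ legV A q Q B := ⟨fun _ _ => rfl, ⟨b₀, fun _ _ _ _ => rfl⟩, b₀, hb₀, rfl⟩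
  have hxA : ∀ b ∈ A, x' b = q b := fun b hb =>
    flipOn_notMem fun hbQ => (Finset.disjoint_left.mp hQA) hbQ hb
  refine ⟨Finset.subset_union_left, hxA, Or.inr ⟨by linarith, ⟨q, Finset.univ.filter fun b =>
    q b = tgt A q b, forb B x'⟩, ⟨hqV, by simp, rfl⟩, rfl⟩, ?_, ?_, ?_, ?_⟩
  · rintro κ ⟨h1, h2, -⟩ b hb
    rw [h2, tgt_mem hb]; exact h1.1 b hb
  · rintro t ⟨h1, -, h3⟩
    rw [h3]
    have : (dist t.u q : ℝ) ≤ Q.card := by exact_mod_cast legV_dist hBQ h1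
    linarith
  · intro b hb
    exact ⟨Finset.mem_union_right _ hb, fun hbA => (Finset.disjoint_left.mp hBA) hb hbA⟩
  intro ℱ ω hF hK G' f' hG'
  -- marked vertices see all faces through essential coordinates
  have hsee : ∀ y ∈ legV A q Q B, ∀ F ∈ ℱ, ∃ b ∈ cut B x' ω F, y b ≠ ω b ∧ tgt A q b = ω b := by
    intro y hy F hFF
    obtain ⟨b, hb, h1, h2, h3⟩ := hK ⟨y, Finset.univ.filter fun b => y b = tgt A q b, forb B x'⟩
      ⟨hy, by simp, rfl⟩ F hFF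
    simp only [Finset.mem_filter, Finset.mem_univ, true_and] at h1
    refine ⟨b, mem_cut.mpr ⟨hb, notMem_forb.mp h2⟩, h3, ?_⟩
    exact bool_eq_of_ne (fun h => h1 h.symm) (fun h => h3 h.symm)
  have hseeB : ∀ y ∈ legV A q Q B, ∃ b ∈ B, y b ≠ x' b ∧ tgt A q b = x' b := by
    rintro y ⟨-, -, b, hb, h⟩
    refine ⟨b, hb, ?_, ?_⟩
    · rw [h, hx', flipOn_mem (hBQ hb)]; exact (bool_not_ne _).symm
    · rw [tgt_notMem (fun hbA => (Finset.disjoint_left.mp hBA) hb hbA), hx', flipOn_mem (hBQ hb)]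
  have hsee₁ : ∀ y ∈ legV A q Q B, ∀ F ∈ (insert B (ℱ.image (cut B x' ω))),
      ∃ b ∈ F, y b ≠ mix B x' ω b ∧ tgt A q b = mix B x' ω b := by
    intro y hy F hFF
    rcases Finset.mem_insert.mp hFF with rfl | hFF
    · obtain ⟨b, hb, h1, h2⟩ := hseeB y hy
      exact ⟨b, hb, by rw [mix_mem hb]; exact h1, by rw [mix_mem hb]; exact h2⟩
    · obtain ⟨F₀, hF₀, rfl⟩ := Finset.mem_image.mp hFF
      obtain ⟨b, hb, h1, h2⟩ := hsee y hy F₀ hF₀
      exact ⟨b, hb, by rw [mix_cut hb]; exact h1, by rw [mix_cut hb]; exact h2⟩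
  obtain ⟨G₁, f₁, hG₁, hleaf⟩ := leaf_good A q T (insert B (ℱ.image (cut B x' ω))) (mix B x' ω)
    (by
      intro F hFF
      rcases Finset.mem_insert.mp hFF with rfl | hFF
      · exact hBA
      · obtain ⟨F₀, hF₀, rfl⟩ := Finset.mem_image.mp hFF
        exact (hF F₀ hF₀).mono_left (Finset.filter_subset _ _))
    (hsee₁ q hqV)
  have hT : T + 1 / 2 ≤ T + Q.card := by linarith
  have hG₁' := squeeze_good hG₁ hT
  -- the value next to the end
  have hback : ∀ b ∈ B, nb x' b ∈ legV A q Q B ∧ (dist (nb x' b) q : ℝ) + 1 = Q.card := by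
    intro b hb
    have hbx : nb x' b b = q b := by
      rw [nb_self, hx', flipOn_mem (hBQ hb), Bool.not_not]
    refine ⟨⟨?_, ⟨b, ?_⟩, b, hb, hbx⟩, ?_⟩
    · intro c hc
      have : c ≠ b := fun h => (Finset.disjoint_left.mp hBA) hb (h ▸ hc)
      rw [nb_ne _ this, hxA c hc]
    · intro c _ hcQ hcb
      rw [nb_ne _ hcb, hx', flipOn_notMem hcQ]
    · have h1 := dist_nb (nb x' b) q b hbx
      rw [nb_nb, hx', dist_flipOn] at h1
      rw [← hx'] at h1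
      exact_mod_cast h1.symm
  obtain ⟨G, f, hGood, hD2, hD1⟩ := join_good hxA hBA hT
    ⟨b₀, hb₀, by rw [hx', flipOn_mem (hBQ hb₀)]; exact (bool_not_ne _).symm⟩ hF
    (fun F hFF => by
      obtain ⟨b, hb, h1, -⟩ := hsee q hqV F hFF
      exact ⟨b, hb, h1⟩)
    hG₁' hG'
    (by
      intro y b hb hy hz
      show squeeze (T + Q.card) (f₁ y) < f' (nb y b)
      rcases hG'.src _ hz with ⟨h1, h2⟩ | ⟨-, h2⟩
      · have hyb : y = nb x' b := by rw [← h1, nb_nb]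
        obtain ⟨h3, h4⟩ := hback b hb
        have h5 := (hleaf (nb x' b) h3.1 (hsee₁ _ h3)).2
        rw [h2, hyb, h5, squeeze_of_le (by linarith)]
        linarith
      · have := squeeze_lt (T + Q.card) (f₁ y)
        linarith)
  refine ⟨G, f, hGood, hD2, ?_, ?_, ?_⟩
  · rintro t ⟨ht, htg, htx⟩
    have hdom : Dom A q ℱ ω t.u := ⟨ht.1, fun F hFF => by
      obtain ⟨b, hb, h1, -⟩ := hsee t.u ht F hFF
      exact ⟨b, (mem_cut.mp hb).1, h1⟩⟩
    obtain ⟨-, h1, h2⟩ := hD1 t.u hdom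
      (fun F hFF => by
        obtain ⟨b, hb, h1, -⟩ := hsee t.u ht F hFF
        exact ⟨b, hb, h1⟩)
      (by
        obtain ⟨b, hb, h1, -⟩ := hseeB t.u ht
        exact ⟨b, hb, h1⟩)
    obtain ⟨h3, h4⟩ := hleaf t.u ht.1 (hsee₁ _ ht)
    refine ⟨hdom, by rw [h1, h3, htg], ?_⟩
    rw [h2]
    show squeeze (T + Q.card) (f₁ t.u) = t.x
    have : (dist t.u q : ℝ) ≤ Q.card := by exact_mod_cast legV_dist hBQ ht
    rw [h4, squeeze_of_le (by linarith), htx]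
  · intro y hy b hb hbA hyb hrob
    have hbB : b ∈ B := (Finset.mem_union.mp hb).resolve_left hbA
    obtain ⟨-, -, h2⟩ := hD1 y hy
      (fun F hFF => by
        obtain ⟨b', hb', h1, h2⟩ := hrob F hFF
        refine ⟨b', mem_cut.mpr ⟨hb', ?_⟩, h2⟩
        intro hb'B
        rcases h1 with h1 | rfl
        · exact absurd (Finset.mem_union_right _ hb'B) h1
        · exact bool_eq_of_ne hyb.symm h2.symm)
      ⟨b, hbB, hyb⟩
    rw [h2]
    exact squeeze_lt _ _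
  · intro b hb _ _
    obtain ⟨h3, h4⟩ := hback b hb
    have hdom : Dom A q ℱ ω (nb x' b) := ⟨h3.1, fun F hFF => by
      obtain ⟨b, hb, h1, -⟩ := hsee _ h3 F hFF
      exact ⟨b, (mem_cut.mp hb).1, h1⟩⟩
    obtain ⟨-, -, h2⟩ := hD1 _ hdom
      (fun F hFF => by
        obtain ⟨b, hb, h1, -⟩ := hsee _ h3 F hFF
        exact ⟨b, hb, h1⟩)
      (by
        obtain ⟨b, hb, h1, -⟩ := hseeB _ h3
        exact ⟨b, hb, h1⟩)
    have h5 := (hleaf (nb x' b) h3.1 (hsee₁ _ h3)).2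
    rw [h2]
    show squeeze (T + Q.card) (f₁ (nb x' b)) < _
    rw [h5, squeeze_of_le (by linarith)]
    linarith

theorem seg_compose {A A₁ A₂ : Finset (Fin n)} {x x₁ x₂ : Vertex n} {T T₁ T₂ : ℝ}
    {𝒱₁ 𝒱₂ : Set (Mark n)} {𝒦₁ 𝒦₂ : Set (Con n)} {Bk₁ Bk₂ : Finset (Fin n)}
    (h₁ : Seg A x T A₁ x₁ T₁ 𝒱₁ 𝒦₁ Bk₁) (h₂ : Seg A₁ x₁ T₁ A₂ x₂ T₂ 𝒱₂ 𝒦₂ Bk₂)
    (Bk : Finset (Fin n)) (hBk : ∀ b ∈ Bk, b ∈ Bk₂ ∨ (T₁ + 1 ≤ T₂ ∧ b ∈ A₁ ∧ b ∉ A)) :
    Seg A x T A₂ x₂ T₂ (𝒱₁ ∪ 𝒱₂) (𝒦₁ ∪ 𝒦₂) Bk := by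
  classical
  have hT₁ := h₁.time
  have hT₂ := h₂.time
  refine ⟨h₁.sub.trans h₂.sub, ?_, ?_, ?_, ?_, ?_, ?_⟩
  · intro b hb; rw [h₂.eq b (h₁.sub hb), h₁.eq b hb]
  · rcases h₁.start with ⟨rfl, rfl, rfl⟩ | ⟨h3, κ, hκ, h4⟩
    · rcases h₂.start with ⟨rfl, rfl, rfl⟩ | ⟨h3, κ, hκ, h4⟩
      · left; exact ⟨rfl, rfl, rfl⟩
      · right; exact ⟨h3, κ, Or.inr hκ, h4⟩
    · right; exact ⟨by linarith, κ, Or.inl hκ, h4⟩
  · rintro κ (hκ | hκ)
    · exact h₁.conN κ hκ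
    · exact h₁.sub.trans (h₂.conN κ hκ)
  · rintro t (ht | ht)
    · exact (h₁.val t ht).trans hT₂
    · exact h₂.val t ht
  · intro b hb
    rcases hBk b hb with h | ⟨-, h, h'⟩
    · exact ⟨(h₂.bk b h).1, fun hA => (h₂.bk b h).2 (h₁.sub hA)⟩
    · exact ⟨h₂.sub h, h'⟩
  intro ℱ ω hF hK G' f' hG'
  have himg : (ℱ.image (· \ A₁)).image (· \ A₂) = ℱ.image (· \ A₂) := by
    rw [Finset.image_image]
    apply Finset.image_congr
    intro F _
    show (F \ A₁) \ A₂ = F \ A₂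
    ext c
    simp only [Finset.mem_sdiff]
    constructor
    · rintro ⟨⟨h, -⟩, h'⟩; exact ⟨h, h'⟩
    · rintro ⟨h, h'⟩; exact ⟨⟨h, fun h'' => h' (h₂.sub h'')⟩, h'⟩
  have hD12 : ∀ y, Dom A₁ x₁ (ℱ.image (· \ A₁)) ω y → Dom A x ℱ ω y := by
    intro y hy
    refine ⟨fun b hb => by rw [hy.1 b (h₁.sub hb), h₁.eq b hb], ?_⟩
    intro F hFF
    obtain ⟨b, hb, h⟩ := hy.2 (F \ A₁) (Finset.mem_image.mpr ⟨F, hFF, rfl⟩)
    exact ⟨b, (Finset.mem_sdiff.mp hb).1, h⟩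
  have hD23 : ∀ y, Dom A₂ x₂ (ℱ.image (· \ A₂)) ω y → Dom A₁ x₁ (ℱ.image (· \ A₁)) ω y := by
    intro y hy
    refine ⟨fun b hb => by rw [hy.1 b (h₂.sub hb), h₂.eq b hb], ?_⟩
    intro F hFF
    obtain ⟨F₀, hF₀, rfl⟩ := Finset.mem_image.mp hFF
    obtain ⟨b, hb, h⟩ := hy.2 (F₀ \ A₂) (Finset.mem_image.mpr ⟨F₀, hF₀, rfl⟩)
    rw [Finset.mem_sdiff] at hb
    exact ⟨b, Finset.mem_sdiff.mpr ⟨hb.1, fun h' => hb.2 (h₂.sub h')⟩, h⟩
  obtain ⟨G₁, f₁, g1, g2, g3, g4, g5⟩ := h₂.ext (ℱ.image (· \ A₁)) ω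
    (by
      intro F hFF
      obtain ⟨F₀, hF₀, rfl⟩ := Finset.mem_image.mp hFF
      exact Finset.sdiff_disjoint)
    (by
      intro κ hκ F hFF
      obtain ⟨F₀, hF₀, rfl⟩ := Finset.mem_image.mp hFF
      obtain ⟨b, hb, k1, k2, k3⟩ := hK κ (Or.inr hκ) F₀ hF₀
      exact ⟨b, Finset.mem_sdiff.mpr ⟨hb, fun h => k1 (h₂.conN κ hκ h)⟩, k1, k2, k3⟩)
    G' f' (by rw [himg]; exact hG')
  rw [himg] at g2
  obtain ⟨G, f, k1, k2, k3, k4, k5⟩ := h₁.ext ℱ ω hF (fun κ hκ => hK κ (Or.inl hκ)) G₁ f₁ g1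
  refine ⟨G, f, k1, ?_, ?_, ?_, ?_⟩
  · intro y hy
    obtain ⟨a1, a2⟩ := k2 y (hD23 y hy)
    obtain ⟨b1, b2⟩ := g2 y hy
    exact ⟨by rw [a1, b1], by rw [a2, b2]⟩
  · rintro t (ht | ht)
    · exact k3 t ht
    · obtain ⟨a1, a2, a3⟩ := g3 t ht
      obtain ⟨b1, b2⟩ := k2 _ a1
      exact ⟨hD12 _ a1, by rw [b1, a2], by rw [b2, a3]⟩
  · intro y hy b hb hbA hyb hrob
    by_cases hKy : ∀ c ∈ A₁, y c = x₁ c
    · have hbA₁ : b ∉ A₁ := by
        intro h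
        exact hyb (by rw [hKy b h, h₂.eq b h])
      have hdom : Dom A₁ x₁ (ℱ.image (· \ A₁)) ω y := by
        refine ⟨hKy, ?_⟩
        intro F hFF
        obtain ⟨F₀, hF₀, rfl⟩ := Finset.mem_image.mp hFF
        obtain ⟨b', hb', h1, h2⟩ := hrob F₀ hF₀
        refine ⟨b', Finset.mem_sdiff.mpr ⟨hb', ?_⟩, h2⟩
        rcases h1 with h1 | rfl
        · exact fun h => h1 (h₂.sub h)
        · exact hbA₁
      rw [(k2 y hdom).2]
      refine g4 y hdom b hb hbA₁ hyb ?_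
      intro F hFF
      obtain ⟨F₀, hF₀, rfl⟩ := Finset.mem_image.mp hFF
      obtain ⟨b', hb', h1, h2⟩ := hrob F₀ hF₀
      refine ⟨b', Finset.mem_sdiff.mpr ⟨hb', ?_⟩, h1, h2⟩
      rcases h1 with h1 | rfl
      · exact fun h => h1 (h₂.sub h)
      · exact hbA₁
    · simp only [not_forall] at hKy
      obtain ⟨c, hcA₁, hyc⟩ := hKy
      have hcA : c ∉ A := by
        intro hcA
        exact hyc (by rw [hy.1 c hcA, h₁.eq c hcA])
      by_cases hbA₁ : b ∈ A₁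
      · have h1 := k4 y hy b hbA₁ hbA (by rw [← h₂.eq b hbA₁]; exact hyb) (by
          intro F hFF
          obtain ⟨b', hb', h1, h2⟩ := hrob F hFF
          refine ⟨b', hb', ?_, h2⟩
          rcases h1 with h1 | h1
          · left; exact fun h => h1 (h₂.sub h)
          · right; exact h1)
        linarith
      · have h1 := k4 y hy c hcA₁ hcA hyc (by
          intro F hFF
          obtain ⟨b', hb', h1, h2⟩ := hrob F hFF
          refine ⟨b', hb', ?_, h2⟩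
          left
          rcases h1 with h1 | rfl
          · exact fun h => h1 (h₂.sub h)
          · exact hbA₁)
        linarith
  · intro b hb hdomA hrob
    rcases hBk b hb with hb2 | ⟨hT, hbA₁, hbA⟩
    · obtain ⟨hbA₂, hbA₁⟩ := h₂.bk b hb2
      have hdom : Dom A₁ x₁ (ℱ.image (· \ A₁)) ω (nb x₂ b) := by
        refine ⟨?_, ?_⟩
        · intro c hc
          have : c ≠ b := fun h => hbA₁ (h ▸ hc)
          rw [nb_ne _ this, h₂.eq c hc]
        · intro F hFF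
          obtain ⟨F₀, hF₀, rfl⟩ := Finset.mem_image.mp hFF
          obtain ⟨b', hb', h1, h2⟩ := hrob F₀ hF₀
          refine ⟨b', Finset.mem_sdiff.mpr ⟨hb', ?_⟩, h2⟩
          rcases h1 with h1 | rfl
          · exact fun h => h1 (h₂.sub h)
          · exact hbA₁
      rw [(k2 _ hdom).2]
      refine g5 b hb2 hdom ?_
      intro F hFF
      obtain ⟨F₀, hF₀, rfl⟩ := Finset.mem_image.mp hFF
      obtain ⟨b', hb', h1, h2⟩ := hrob F₀ hF₀
      refine ⟨b', Finset.mem_sdiff.mpr ⟨hb', ?_⟩, h1, h2⟩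
      rcases h1 with h1 | rfl
      · exact fun h => h1 (h₂.sub h)
      · exact hbA₁
    · have h1 := k4 (nb x₂ b) hdomA b hbA₁ hbA
        (by rw [nb_self, ← h₂.eq b hbA₁]; exact bool_not_ne _) (by
          intro F hFF
          obtain ⟨b', hb', h1, h2⟩ := hrob F hFF
          refine ⟨b', hb', ?_, h2⟩
          rcases h1 with h1 | h1
          · left; exact fun h => h1 (h₂.sub h)
          · right; exact h1)
      linarith

/-- The constraints after a release. -/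
def relCons (𝒦 : Set (Con n)) (B : Finset (Fin n)) (x' : Vertex n) (A' : Finset (Fin n)) :
    Set (Con n) :=
  {κ | (∃ κ₀ ∈ 𝒦, κ.u = κ₀.u ∧ κ.N = κ₀.N ∧ κ.U = κ₀.U ∪ forb B x') ∨
    (κ.u = x' ∧ κ.N = A' ∧ κ.U = ∅)}

/-- Releasing closed coordinates: only `B` remains closed (in addition to `A`). -/
theorem seg_release {A A' : Finset (Fin n)} {x x' : Vertex n} {T T' : ℝ}
    {𝒱 : Set (Mark n)} {𝒦 : Set (Con n)} {Bk : Finset (Fin n)}
    (h : Seg A x T A' x' T' 𝒱 𝒦 Bk) (hT : T + 1 ≤ T') (B : Finset (Fin n)) (hB : B ⊆ Bk)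
    (hsee : ∀ κ ∈ 𝒦, κ.Sees B x') :
    Seg A x T (A ∪ B) x' T' 𝒱 (relCons 𝒦 B x' A') ∅ := by
  classical
  have hBA' : B ⊆ A' := fun b hb => (h.bk b (hB hb)).1
  have hBA : Disjoint B A := Finset.disjoint_left.mpr fun b hb => (h.bk b (hB hb)).2
  obtain ⟨κx, hκx, hκxu⟩ : ∃ κ ∈ 𝒦, κ.u = x := by
    rcases h.start with ⟨-, -, h'⟩ | ⟨-, h'⟩
    · linarith
    · exact h'
  refine ⟨Finset.subset_union_left, h.eq, Or.inr ⟨hT, ⟨κx.u, κx.N, κx.U ∪ forb B x'⟩,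
    Or.inl ⟨κx, hκx, rfl, rfl, rfl⟩, hκxu⟩, ?_, h.val, by simp, ?_⟩
  · rintro κ (⟨κ₀, hκ₀, -, h2, -⟩ | ⟨-, h2, -⟩)
    · rw [h2]; exact h.conN κ₀ hκ₀
    · rw [h2]; exact h.sub
  intro ℱ ω hF hK G₂ f₂ hG₂
  have hK' : ∀ κ₀ ∈ 𝒦, ∀ F ∈ ℱ, ∃ b ∈ cut B x' ω F, b ∉ κ₀.N ∧ (b, ω b) ∉ κ₀.U ∧ κ₀.u b ≠ ω b := by
    intro κ₀ hκ₀ F hFF
    obtain ⟨b, hb, h1, h2, h3⟩ := hK ⟨κ₀.u, κ₀.N, κ₀.U ∪ forb B x'⟩
      (Or.inl ⟨κ₀, hκ₀, rfl, rfl, rfl⟩) F hFF
    simp only [Finset.mem_union, not_or] at h2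
    exact ⟨b, mem_cut.mpr ⟨hb, notMem_forb.mp h2.2⟩, h1, h2.1, h3⟩
  have hend : ∀ F ∈ ℱ, ∃ b ∈ F, b ∉ A' ∧ x' b ≠ ω b := by
    intro F hFF
    obtain ⟨b, hb, h1, -, h3⟩ := hK ⟨x', A', ∅⟩ (Or.inr ⟨rfl, rfl, rfl⟩) F hFF
    exact ⟨b, hb, h1, h3⟩
  have hnodom : ∀ y, ¬ Dom A' x' ((insert B (ℱ.image (cut B x' ω))).image (· \ A'))
      (mix B x' ω) y := by
    intro y hy
    obtain ⟨b, hb, -⟩ := hy.2 (B \ A')
      (Finset.mem_image.mpr ⟨B, Finset.mem_insert_self _ _, rfl⟩)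
    rw [Finset.mem_sdiff] at hb
    exact hb.2 (hBA' hb.1)
  obtain ⟨G₁, f₁, g1, -, g3, -, g5⟩ := h.ext (insert B (ℱ.image (cut B x' ω))) (mix B x' ω)
    (by
      intro F hFF
      rcases Finset.mem_insert.mp hFF with rfl | hFF
      · exact hBA
      · obtain ⟨F₀, hF₀, rfl⟩ := Finset.mem_image.mp hFF
        exact (hF F₀ hF₀).mono_left (Finset.filter_subset _ _))
    (by
      intro κ hκ F hFF
      rcases Finset.mem_insert.mp hFF with rfl | hFF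
      · obtain ⟨b, hb, h1, h2, h3⟩ := hsee κ hκ
        exact ⟨b, hb, h1, by rw [mix_mem hb]; exact h2, by rw [mix_mem hb]; exact h3⟩
      · obtain ⟨F₀, hF₀, rfl⟩ := Finset.mem_image.mp hFF
        obtain ⟨b, hb, h1, h2, h3⟩ := hK' κ hκ F₀ hF₀
        exact ⟨b, hb, h1, by rw [mix_cut hb]; exact h2, by rw [mix_cut hb]; exact h3⟩)
    (fun _ => x') (fun _ => 0)
    ⟨fun y hy => absurd hy (hnodom y), fun y hy => absurd hy (hnodom y),
      fun y _ hy => absurd hy (hnodom y), fun y _ hy => absurd hy (hnodom y),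
      fun y hy => absurd hy (hnodom y)⟩
  have hT2 : T + 1 / 2 ≤ T' := by linarith
  have g1' := squeeze_good g1 hT2
  obtain ⟨G, f, hGood, hD2, hD1⟩ := join_good h.eq hBA hT2
    (by
      obtain ⟨b, hb, -, -, h3⟩ := hsee κx hκx
      exact ⟨b, hb, by rw [← hκxu]; exact h3⟩)
    hF
    (fun F hFF => by
      obtain ⟨b, hb, -, -, h3⟩ := hK' κx hκx F hFF
      exact ⟨b, hb, by rw [← hκxu]; exact h3⟩)
    g1' hG₂
    (by
      intro y b hb hy hz
      show squeeze T' (f₁ y) < f₂ (nb y b)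
      rcases hG₂.src _ hz with ⟨h1, h2⟩ | ⟨-, h2⟩
      · have hyb : y = nb x' b := by rw [← h1, nb_nb]
        subst hyb
        have h3 := g5 b (hB hb) hy (by
          intro F hFF
          rcases Finset.mem_insert.mp hFF with rfl | hFF
          · exact ⟨b, hb, Or.inr rfl, by rw [nb_self, mix_mem hb]; exact bool_not_ne _⟩
          · obtain ⟨F₀, hF₀, rfl⟩ := Finset.mem_image.mp hFF
            obtain ⟨b', hb', h4, h5⟩ := hend F₀ hF₀
            have hb'B : b' ∉ B := fun hh => h4 (hBA' hh)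
            have hb'b : b' ≠ b := fun hh => h4 (hh ▸ hBA' hb)
            exact ⟨b', mem_cut.mpr ⟨hb', fun hh => absurd hh hb'B⟩, Or.inl h4,
              by rw [nb_ne _ hb'b, mix_notMem hb'B]; exact h5⟩)
        rw [h2, squeeze_of_le h3.le]
        exact h3
      · have := squeeze_lt T' (f₁ y)
        linarith)
  refine ⟨G, f, hGood, hD2, ?_, ?_, by simp⟩
  · intro t ht
    obtain ⟨a1, a2, a3⟩ := g3 t ht
    have hdom : Dom A x ℱ ω t.u := by
      refine ⟨a1.1, ?_⟩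
      intro F hFF
      obtain ⟨b, hb, hh⟩ := a1.2 (cut B x' ω F)
        (Finset.mem_insert_of_mem (Finset.mem_image.mpr ⟨F, hFF, rfl⟩))
      rw [mix_cut hb] at hh
      exact ⟨b, (mem_cut.mp hb).1, hh⟩
    obtain ⟨-, h1, h2⟩ := hD1 t.u hdom
      (by
        intro F hFF
        obtain ⟨b, hb, hh⟩ := a1.2 (cut B x' ω F)
          (Finset.mem_insert_of_mem (Finset.mem_image.mpr ⟨F, hFF, rfl⟩))
        rw [mix_cut hb] at hh
        exact ⟨b, hb, hh⟩)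
      (by
        obtain ⟨b, hb, hh⟩ := a1.2 B (Finset.mem_insert_self _ _)
        rw [mix_mem hb] at hh
        exact ⟨b, hb, hh⟩)
    refine ⟨hdom, by rw [h1, a2], ?_⟩
    rw [h2]
    show squeeze T' (f₁ t.u) = t.x
    rw [a3, squeeze_of_le (h.val t ht)]
  · intro y hy b hb hbA hyb hrob
    have hbB : b ∈ B := (Finset.mem_union.mp hb).resolve_left hbA
    obtain ⟨-, -, h2⟩ := hD1 y hy
      (fun F hFF => by
        obtain ⟨b', hb', h1, h2⟩ := hrob F hFF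
        refine ⟨b', mem_cut.mpr ⟨hb', ?_⟩, h2⟩
        intro hb'B
        rcases h1 with h1 | rfl
        · exact absurd (Finset.mem_union_right _ hb'B) h1
        · exact bool_eq_of_ne hyb.symm h2.symm)
      ⟨b, hbB, hyb⟩
    rw [h2]
    exact squeeze_lt _ _

end Pool.Agent.MP4d246d.Gain
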