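import Pool.Agent.Lib.MP_4d246d_lc.Gain.Leg
import Pool.Agent.Lib.MP_4d246d_lc.Gain.Hits

/-!
# Many legs of the same length in a row
-/

namespace Pool.Agent.MP4d246d.Gain

variable {n : ℕ}

/-- A record of one leg: its starting vertex `q`, the directions `Z` closed or used in it, the
pairs `U` that must not serve as witnesses, its level. -/
structure Rec (n : ℕ) where
  q : Vertex n
  Z : Finset (Fin n)
  U : Finset (Fin n × Bool)
  lev : ℕ

/-- The constraint `κ` belongs to the leg with record `r`. -/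
def Covers (r : Rec n) (κ : Con n) : Prop :=
  κ.U ⊆ r.U ∧ ∃ c₀, ∀ c ∉ r.Z, c ≠ c₀ → κ.u c = r.q c ∧ c ∉ κ.N

open Classical in
/-- The coordinates that separate the leg `r` from `x`. -/
noncomputable def dset (r : Rec n) (x : Vertex n) : Finset (Fin n) :=
  Finset.univ.filter fun c => c ∉ r.Z ∧ x c ≠ r.q c

open Classical in
/-- The coordinates that can serve as witnesses. -/
noncomputable def vset (r : Rec n) (x : Vertex n) : Finset (Fin n) :=
  Finset.univ.filter fun c => c ∉ r.Z ∧ x c ≠ r.q c ∧ (c, x c) ∉ r.U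

theorem mem_dset {r : Rec n} {x : Vertex n} {c : Fin n} :
    c ∈ dset r x ↔ c ∉ r.Z ∧ x c ≠ r.q c := by
  simp [dset]

theorem mem_vset {r : Rec n} {x : Vertex n} {c : Fin n} :
    c ∈ vset r x ↔ c ∉ r.Z ∧ x c ≠ r.q c ∧ (c, x c) ∉ r.U := by
  simp [vset]

/-- Two witnesses suffice to see a closed set. -/
theorem Covers.sees {r : Rec n} {κ : Con n} (h : Covers r κ) {B : Finset (Fin n)} {x : Vertex n}
    (h2 : 2 ≤ (B ∩ vset r x).card) : κ.Sees B x := by
  classical
  obtain ⟨h3, c₀, h4⟩ := h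
  have h5 : 0 < ((B ∩ vset r x).erase c₀).card := by
    have := Finset.pred_card_le_card_erase (s := B ∩ vset r x) (a := c₀)
    omega
  obtain ⟨b, hb⟩ := Finset.card_pos.mp h5
  rw [Finset.mem_erase, Finset.mem_inter, mem_vset] at hb
  obtain ⟨hbc, hbB, hbZ, hbq, hbU⟩ := hb
  obtain ⟨h6, h7⟩ := h4 b hbZ hbc
  exact ⟨b, hbB, h7, fun h => hbU (h3 h), by rw [h6]; exact hbq.symm⟩

/-- The effect of a leg on the distance. -/
theorem dset_flip (r : Rec n) (x : Vertex n) (Q : Finset (Fin n)) :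
    (dset r (flipOn Q x)).card + (Q \ r.Z).card ≤
      (dset r x).card + 2 * ((vset r (flipOn Q x) ∩ Q).card + r.U.card) := by
  classical
  set x' := flipOn Q x with hx'
  have h1 : dset r x' \ Q = dset r x \ Q := by
    ext c
    simp only [Finset.mem_sdiff, mem_dset]
    constructor
    · rintro ⟨⟨h, h'⟩, h''⟩; exact ⟨⟨h, by rw [hx', flipOn_notMem h''] at h'; exact h'⟩, h''⟩
    · rintro ⟨⟨h, h'⟩, h''⟩; exact ⟨⟨h, by rw [hx', flipOn_notMem h'']; exact h'⟩, h''⟩
  have h2 := Finset.card_sdiff_add_card_inter (dset r x') Q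
  have h3 := Finset.card_sdiff_add_card_inter (dset r x) Q
  rw [h1] at h2
  have h4 : (Q \ r.Z).card ≤ (dset r x' ∩ Q).card + (dset r x ∩ Q).card := by
    have : Q \ r.Z ⊆ (dset r x' ∩ Q) ∪ (dset r x ∩ Q) := by
      intro c hc
      rw [Finset.mem_sdiff] at hc
      rw [Finset.mem_union, Finset.mem_inter, Finset.mem_inter, mem_dset, mem_dset]
      by_cases h : x c = r.q c
      · left
        refine ⟨⟨hc.2, ?_⟩, hc.1⟩
        rw [hx', flipOn_mem hc.1, h]; exact bool_not_ne _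
      · right; exact ⟨⟨hc.2, h⟩, hc.1⟩
    exact (Finset.card_le_card this).trans (Finset.card_union_le _ _)
  have h5 : (dset r x' ∩ Q).card + (dset r x ∩ Q).card ≤ (Q \ r.Z).card := by
    have hdis : Disjoint (dset r x' ∩ Q) (dset r x ∩ Q) := by
      rw [Finset.disjoint_left]
      intro c hc hc'
      rw [Finset.mem_inter, mem_dset] at hc hc'
      apply hc.1.2
      rw [hx', flipOn_mem hc.2]
      exact bool_flip hc'.1.2
    rw [← Finset.card_union_of_disjoint hdis]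
    apply Finset.card_le_card
    intro c hc
    rw [Finset.mem_union, Finset.mem_inter, Finset.mem_inter, mem_dset, mem_dset] at hc
    rw [Finset.mem_sdiff]
    rcases hc with h | h
    · exact ⟨h.2, h.1.1⟩
    · exact ⟨h.2, h.1.1⟩
  have h6 : (dset r x' ∩ Q).card ≤ (vset r x' ∩ Q).card + r.U.card := by
    have h7 : dset r x' ∩ Q ⊆
        (vset r x' ∩ Q) ∪ (Finset.univ.filter fun c => (c, x' c) ∈ r.U) := by
      intro c hc
      rw [Finset.mem_inter, mem_dset] at hc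
      rw [Finset.mem_union, Finset.mem_inter, mem_vset, Finset.mem_filter]
      by_cases h : (c, x' c) ∈ r.U
      · right; exact ⟨Finset.mem_univ _, h⟩
      · left; exact ⟨⟨hc.1.1, hc.1.2, h⟩, hc.2⟩
    have h8 : (Finset.univ.filter fun c => (c, x' c) ∈ r.U).card ≤ r.U.card := by
      apply Finset.card_le_card_of_injOn (fun c => (c, x' c))
      · intro c hc
        simpa using hc
      · intro c _ c' _ h
        simp only [Prod.mk.injEq] at h
        exact h.1
    exact (Finset.card_le_card h7).trans ((Finset.card_union_le _ _).trans (by omega))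
  omega

theorem forb_card (B : Finset (Fin n)) (x : Vertex n) : (forb B x).card ≤ B.card :=
  Finset.card_image_le

/-- The term of the record `r` in the potential. -/
noncomputable def term (u k : ℕ) (B : Finset (Fin n)) (x : Vertex n) (α : Rec n → ℕ)
    (r : Rec n) : ℝ :=
  (1 / 4) ^ (k - r.lev) * (1 / 4) ^ (B ∩ vset r x).card *
    Real.exp (3 / 4 * ((α r : ℝ) / ((6 * u * k + 2 : ℕ) : ℝ)))

theorem term_nonneg (u k : ℕ) (B : Finset (Fin n)) (x : Vertex n) (α : Rec n → ℕ) (r : Rec n) :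
    0 ≤ term u k B x α r := by
  unfold term; positivity

/-- The outcome of `j` legs of level `k` played from `p` with closed set `A`, against the earlier
legs `𝓛`. -/
structure Parts (ρ : PivotRule n) (v₀ : Vertex n) (E : Finset (Fin n)) (h u k : ℕ)
    (l : History n) (p : Vertex n) (A : Finset (Fin n)) (𝓛 : List (Rec n)) (j : ℕ)
    (new : History n) (x : Vertex n) (B : Finset (Fin n)) (𝒱 : Set (Mark n)) (𝒦 : Set (Con n))
    (𝓝 : List (Rec n)) (α : Rec n → ℕ) : Prop where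
  hist : Hist ρ v₀ (new ++ l) x
  len : j ≤ new.length
  disj : Disjoint B A
  seg : Seg A p (l.length : ℝ) (A ∪ B) x ((new.length : ℝ) + l.length) 𝒱 𝒦 B
  pot : (𝓛.map (term u k B x α)).sum + 3 / 4 * ((B.card : ℝ) - 3 * j) ≤ 9 * h
  small : ∀ r ∈ 𝓛, term u k B x α r < 1
  alpha : ∀ r ∈ 𝓛, (dset r x).card + j * (6 * u * (k - r.lev)) ≤
    2 * α r + (dset r p).card + j * (3 * u)
  see : ∀ κ ∈ 𝒦, κ.Sees B x
  cover : ∀ κ ∈ 𝒦, ∃ r ∈ 𝓝, Covers r κ
  last : 1 ≤ j → ∃ r ∈ 𝓝, Covers r ⟨x, A ∪ B, ∅⟩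
  recs_len : 𝓝.length = j
  rec_lev : ∀ r ∈ 𝓝, r.lev = k
  rec_sub : ∀ r ∈ 𝓝, A ⊆ r.Z
  rec_Z : ∀ r ∈ 𝓝, (r.Z \ E).card ≤ u + 2 + 6 * u * k
  rec_U : ∀ r ∈ 𝓝, r.U.card ≤ 66 * h
  expl : ∀ e ∈ new, Expl 𝒱 x ((new.length : ℝ) + l.length) e
  start : Start 𝒱 p (l.length : ℝ) x ((new.length : ℝ) + l.length)

theorem Parts.card {ρ : PivotRule n} {v₀ : Vertex n} {E : Finset (Fin n)} {h u k : ℕ}
    {l : History n} {p : Vertex n} {A : Finset (Fin n)} {𝓛 : List (Rec n)} {j : ℕ}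
    {new : History n} {x : Vertex n} {B : Finset (Fin n)} {𝒱 : Set (Mark n)} {𝒦 : Set (Con n)}
    {𝓝 : List (Rec n)} {α : Rec n → ℕ}
    (P : Parts ρ v₀ E h u k l p A 𝓛 j new x B 𝒱 𝒦 𝓝 α) (hj : j ≤ 18 * h) : B.card ≤ 66 * h := by
  have h1 := P.pot
  have h2 : 0 ≤ (𝓛.map (term u k B x α)).sum := by
    apply List.sum_nonneg
    intro y hy
    obtain ⟨r, -, rfl⟩ := List.mem_map.mp hy
    exact term_nonneg _ _ _ _ _ _
  have h3 : (j : ℝ) ≤ 18 * h := by exact_mod_cast hj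
  have h4 : (B.card : ℝ) ≤ 66 * h := by linarith
  exact_mod_cast h4

theorem parts_zero (ρ : PivotRule n) (v₀ : Vertex n) (E : Finset (Fin n)) (h u k : ℕ)
    (l : History n) (p : Vertex n) (A : Finset (Fin n)) (𝓛 : List (Rec n))
    (hl : Hist ρ v₀ l p) (hlev : ∀ r ∈ 𝓛, r.lev < k)
    (hW : (𝓛.map fun r => (1 / 4 : ℝ) ^ (k - r.lev)).sum ≤ 9 * h) :
    Parts ρ v₀ E h u k l p A 𝓛 0 [] p ∅ ∅ ∅ [] (fun _ => 0) := by
  classical
  have hterm : ∀ r, term u k ∅ p (fun _ => 0) r = (1 / 4 : ℝ) ^ (k - r.lev) := by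
    intro r; simp [term]
  constructor
  · simpa using hl
  · simp
  · simp
  · simpa using seg_empty A p (l.length : ℝ)
  · have : (𝓛.map (term u k ∅ p (fun _ => 0))).sum =
        (𝓛.map fun r => (1 / 4 : ℝ) ^ (k - r.lev)).sum := by
      congr 1
      exact List.map_congr_left fun r _ => hterm r
    rw [this]
    simpa using hW
  · intro r hr
    rw [hterm]
    have := hlev r hr
    exact pow_lt_one₀ (by norm_num) (by norm_num) (by omega)
  · intro r hr; simp
  · simp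
  · simp
  · intro h; omega
  · rfl
  · simp
  · simp
  · simp
  · simp
  · simp
  · left; simp

theorem parts_step (ρ : PivotRule n) (v₀ : Vertex n) (E : Finset (Fin n)) (h u k : ℕ)
    (hh : 1 ≤ h) (hu : u = h * (66 * h)) (hE : Eᶜ.card = 6 * h * u) (hk : k + 1 ≤ h)
    (l : History n) (p : Vertex n) (A : Finset (Fin n)) (hEA : E ⊆ A)
    (hA : (A \ E).card + 66 * h ≤ u) (𝓛 : List (Rec n))
    (hlev : ∀ r ∈ 𝓛, r.lev < k) (hZE : ∀ r ∈ 𝓛, (r.Z \ E).card ≤ u + 2 + 6 * u * r.lev)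
    (hU : ∀ r ∈ 𝓛, r.U.card ≤ u) (j : ℕ) (hj : j + 1 ≤ 18 * h)
    (new : History n) (x : Vertex n) (B : Finset (Fin n)) (𝒱 : Set (Mark n)) (𝒦 : Set (Con n))
    (𝓝 : List (Rec n)) (α : Rec n → ℕ)
    (P : Parts ρ v₀ E h u k l p A 𝓛 j new x B 𝒱 𝒦 𝓝 α) :
    ∃ (new' : History n) (x' : Vertex n) (B' : Finset (Fin n)) (𝒱' : Set (Mark n))
      (𝒦' : Set (Con n)) (𝓝' : List (Rec n)) (α' : Rec n → ℕ),
      Parts ρ v₀ E h u k l p A 𝓛 (j + 1) new' x' B' 𝒱' 𝒦' 𝓝' α' := by
  classical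
  have hBcard := P.card (by omega)
  have hu66 : 66 ≤ u := by
    rw [hu]
    calc 66 = 1 * (66 * 1) := by norm_num
      _ ≤ h * (66 * h) := Nat.mul_le_mul hh (Nat.mul_le_mul_left _ hh)
  have hABE : ((A ∪ B) \ E).card ≤ u := by
    have h1 : (A ∪ B) \ E ⊆ (A \ E) ∪ B := by
      intro c hc
      simp only [Finset.mem_sdiff, Finset.mem_union] at hc ⊢
      tauto
    have h2 := Finset.card_le_card h1
    have h3 := Finset.card_union_le (A \ E) B
    omega
  have hEc : E.card + Eᶜ.card = n := by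
    rw [Finset.card_add_card_compl, Fintype.card_fin]
  have hkh : 6 * u * k + 6 * u ≤ 6 * h * u := by
    calc 6 * u * k + 6 * u = 6 * u * (k + 1) := by ring
      _ ≤ 6 * u * h := Nat.mul_le_mul_left _ hk
      _ = 6 * h * u := by ring
  have hcard : (A ∪ B).card + (6 * u * k + 2) ≤ n := by
    have h1 : (A ∪ B).card ≤ ((A ∪ B) \ E).card + E.card := by
      have := Finset.card_le_card (show A ∪ B ⊆ ((A ∪ B) \ E) ∪ E by
        intro c hc; simp only [Finset.mem_union, Finset.mem_sdiff] at hc ⊢; tauto)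
      exact this.trans (Finset.card_union_le _ _)
    omega
  obtain ⟨new₂, Q, c₁, c₂, L1, L2, L3, L4, L5, L6, L7, L8⟩ :=
    leg ρ v₀ (A ∪ B) x (new ++ l) P.hist (6 * u * k) hcard
  set x' := flipOn Q x with hx'
  have hQne : Q.Nonempty := ⟨c₁, L5⟩
  have hQA : ∀ b ∈ A, b ∉ Q := fun b hb hbQ =>
    (Finset.disjoint_left.mp L3) hbQ (Finset.mem_union_left _ hb)
  have hQB : ∀ b ∈ B, b ∉ Q := fun b hb hbQ =>
    (Finset.disjoint_left.mp L3) hbQ (Finset.mem_union_right _ hb)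
  have hxB : ∀ b ∈ B, x' b = x b := fun b hb => flipOn_notMem (hQB b hb)
  -- the new hits
  obtain ⟨H, hHQ, hH1, hH2⟩ := exists_hits Q hQne 𝓛 (term u k B x α)
    (fun r => vset r x' ∩ Q) (fun r _ => Finset.inter_subset_right)
    (fun r _ => term_nonneg _ _ _ _ _ _) P.small
  set C := insert c₁ (insert c₂ H) with hC
  have hCQ : C ⊆ Q := Finset.insert_subset L5 (Finset.insert_subset L6 hHQ)
  have hCcard : C.card ≤ H.card + 2 := by
    have h1 : C.card ≤ (insert c₂ H).card + 1 := Finset.card_insert_le c₁ (insert c₂ H)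
    have h2 : (insert c₂ H).card ≤ H.card + 1 := Finset.card_insert_le c₂ H
    omega
  have hC1 : c₁ ∈ C := Finset.mem_insert_self _ _
  have hC2 : c₂ ∈ C := Finset.mem_insert_of_mem (Finset.mem_insert_self _ _)
  set α' : Rec n → ℕ := fun r => α r + (vset r x' ∩ Q).card with hα'
  have hseg := leg_seg (A ∪ B) x ((new.length : ℝ) + l.length) Q C L3 hCQ ⟨c₁, hC1⟩
  have hQcard : (Q.card : ℝ) = ((6 * u * k + 2 : ℕ) : ℝ) := by rw [L2]
  have hlen : (((new₂ ++ new).length : ℕ) : ℝ) + l.length =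
      ((new.length : ℝ) + l.length) + Q.card := by
    rw [List.length_append, L4, hQcard]; push_cast; ring
  -- terms
  have hterm : ∀ r ∈ 𝓛, term u k (B ∪ C) x' α' r ≤
      term u k B x α r * Real.exp (3 / 4 * (((vset r x' ∩ Q).card : ℝ) / Q.card)) *
        (1 / 4) ^ (H ∩ (vset r x' ∩ Q)).card := by
    intro r _
    have h1 : (B ∩ vset r x).card + (H ∩ (vset r x' ∩ Q)).card ≤ ((B ∪ C) ∩ vset r x').card := by
      have hdis : Disjoint (B ∩ vset r x) (H ∩ (vset r x' ∩ Q)) := by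
        rw [Finset.disjoint_left]
        intro c hc hc'
        simp only [Finset.mem_inter] at hc hc'
        exact hQB c hc.1 hc'.2.2
      rw [← Finset.card_union_of_disjoint hdis]
      apply Finset.card_le_card
      intro c hc
      rw [Finset.mem_union, Finset.mem_inter, Finset.mem_inter, Finset.mem_inter] at hc
      rw [Finset.mem_inter, Finset.mem_union]
      rcases hc with ⟨hcB, hcV⟩ | ⟨hcH, hcV, -⟩
      · refine ⟨Or.inl hcB, ?_⟩
        rw [mem_vset] at hcV ⊢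
        rw [hxB c hcB]; exact hcV
      · exact ⟨Or.inr (Finset.mem_insert_of_mem (Finset.mem_insert_of_mem hcH)), hcV⟩
    have h2 : ((1 : ℝ) / 4) ^ ((B ∪ C) ∩ vset r x').card ≤
        (1 / 4) ^ (B ∩ vset r x).card * (1 / 4) ^ (H ∩ (vset r x' ∩ Q)).card := by
      rw [← pow_add]
      exact pow_le_pow_of_le_one (by norm_num) (by norm_num) h1
    have h3 : Real.exp (3 / 4 * ((α' r : ℝ) / ((6 * u * k + 2 : ℕ) : ℝ))) =
        Real.exp (3 / 4 * ((α r : ℝ) / ((6 * u * k + 2 : ℕ) : ℝ))) *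
          Real.exp (3 / 4 * (((vset r x' ∩ Q).card : ℝ) / Q.card)) := by
      rw [← Real.exp_add]
      congr 1
      rw [hQcard]
      simp only [hα']
      push_cast
      ring
    unfold term
    rw [h3]
    calc (1 / 4 : ℝ) ^ (k - r.lev) * (1 / 4) ^ ((B ∪ C) ∩ vset r x').card *
          (Real.exp (3 / 4 * ((α r : ℝ) / ((6 * u * k + 2 : ℕ) : ℝ))) *
          Real.exp (3 / 4 * (((vset r x' ∩ Q).card : ℝ) / Q.card)))
        ≤ (1 / 4 : ℝ) ^ (k - r.lev) * ((1 / 4) ^ (B ∩ vset r x).card *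
          (1 / 4) ^ (H ∩ (vset r x' ∩ Q)).card) *
          (Real.exp (3 / 4 * ((α r : ℝ) / ((6 * u * k + 2 : ℕ) : ℝ))) *
          Real.exp (3 / 4 * (((vset r x' ∩ Q).card : ℝ) / Q.card))) := by
          apply mul_le_mul_of_nonneg_right _ (by positivity)
          exact mul_le_mul_of_nonneg_left h2 (by positivity)
      _ = _ := by ring
  have hpot : (𝓛.map (term u k (B ∪ C) x' α')).sum +
      3 / 4 * (((B ∪ C).card : ℝ) - 3 * ((j + 1 : ℕ) : ℝ)) ≤ 9 * h := by
    have h1 := List.sum_le_sum hterm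
    have h2 := P.pot
    have h3 : ((B ∪ C).card : ℝ) ≤ B.card + (H.card + 2) := by
      have := Finset.card_union_le B C
      have h4 : (B ∪ C).card ≤ B.card + (H.card + 2) := by omega
      exact_mod_cast h4
    push_cast
    linarith
  have hBC : (B ∪ C).card ≤ 66 * h := by
    have h2 : 0 ≤ (𝓛.map (term u k (B ∪ C) x' α')).sum := by
      apply List.sum_nonneg
      intro y hy
      obtain ⟨r, -, rfl⟩ := List.mem_map.mp hy
      exact term_nonneg _ _ _ _ _ _
    have h3 : ((j + 1 : ℕ) : ℝ) ≤ 18 * h := by exact_mod_cast hj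
    have h4 : ((B ∪ C).card : ℝ) ≤ 66 * h := by linarith
    exact_mod_cast h4
  have hCc : C.card ≤ 66 * h := (Finset.card_le_card Finset.subset_union_right).trans hBC
  -- the new record
  set r₀ : Rec n := ⟨x, (A ∪ B) ∪ Q, forb C x', k⟩ with hr₀
  have hcov : ∀ κ ∈ legCons (A ∪ B) x Q C, Covers r₀ κ := by
    rintro κ ⟨⟨h1, ⟨c₀, h2⟩, -⟩, h3, h4⟩
    refine ⟨by rw [h4], c₀, ?_⟩
    intro c hc hcc
    have hc' : c ∉ A ∪ B ∧ c ∉ Q := by
      rw [← not_or, ← Finset.mem_union]; exact hc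
    have h5 : κ.u c = x c := h2 c hc'.1 hc'.2 hcc
    refine ⟨h5, ?_⟩
    rw [h3, h5, tgt_notMem hc'.1]
    exact (bool_not_ne _).symm
  have hdisj : Disjoint (B ∪ C) A := by
    rw [Finset.disjoint_union_left]
    refine ⟨P.disj, ?_⟩
    rw [Finset.disjoint_left]
    intro c hc hcA
    exact hQA c hcA (hCQ hc)
  refine ⟨new₂ ++ new, x', B ∪ C, 𝒱 ∪ legMarks (A ∪ B) x ((new.length : ℝ) + l.length) Q C,
    𝒦 ∪ legCons (A ∪ B) x Q C, r₀ :: 𝓝, α', ?_⟩
  constructor
  · rw [List.append_assoc]; exact L1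
  · have := P.len
    rw [List.length_append, L4]; omega
  · exact hdisj
  · rw [hlen, ← Finset.union_assoc]
    refine seg_compose P.seg hseg (B ∪ C) ?_
    intro b hb
    rcases Finset.mem_union.mp hb with hb | hb
    · right
      refine ⟨?_, Finset.mem_union_right _ hb, fun hbA => (Finset.disjoint_left.mp P.disj) hb hbA⟩
      have : (1 : ℝ) ≤ Q.card := by
        have := Finset.card_pos.mpr hQne
        exact_mod_cast this
      linarith
    · left; exact hb
  · exact hpot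
  · intro r hr
    exact lt_of_le_of_lt (hterm r hr) (hH1 r hr)
  · intro r hr
    have h1 := P.alpha r hr
    have h2 := dset_flip r x Q
    rw [← hx'] at h2
    have h3 := hZE r hr
    have h4 := hU r hr
    have h5 := hlev r hr
    have h6 : Q.card ≤ (Q \ r.Z).card + (r.Z \ E).card := by
      have h7 : Q ⊆ (Q \ r.Z) ∪ (r.Z \ E) := by
        intro c hc
        rw [Finset.mem_union, Finset.mem_sdiff, Finset.mem_sdiff]
        by_cases hcZ : c ∈ r.Z
        · right; exact ⟨hcZ, fun hcE => hQA c (hEA hcE) hc⟩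
        · left; exact ⟨hc, hcZ⟩
      exact (Finset.card_le_card h7).trans (Finset.card_union_le _ _)
    have h8 : 6 * u * k = 6 * u * (k - r.lev) + 6 * u * r.lev := by
      rw [← mul_add]; congr 1; omega
    have h9 : (j + 1) * (6 * u * (k - r.lev)) =
        j * (6 * u * (k - r.lev)) + 6 * u * (k - r.lev) := by ring
    have h10 : (j + 1) * (3 * u) = j * (3 * u) + 3 * u := by ring
    have h11 : α' r = α r + (vset r x' ∩ Q).card := rfl
    rw [h9, h10, h11]
    omega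
  · rintro κ (hκ | hκ)
    · obtain ⟨b, hb, h1, h2, h3⟩ := P.see κ hκ
      rw [← hxB b hb] at h2 h3
      exact ⟨b, Finset.mem_union_left _ hb, h1, h2, h3⟩
    · obtain ⟨⟨h1, h2, b, hb, h3⟩, h4, h5⟩ := hκ
      have hbx : x' b = !x b := flipOn_mem (hCQ hb)
      have hbAB : b ∉ A ∪ B := fun hb' => (Finset.disjoint_left.mp L3) (hCQ hb) hb'
      refine ⟨b, Finset.mem_union_right _ hb, ?_, ?_, ?_⟩
      · rw [h4, h3, tgt_notMem hbAB]; exact (bool_not_ne _).symm
      · rw [h5, notMem_forb]; intro _; rfl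
      · rw [h3, hbx]; exact (bool_not_ne _).symm
  · rintro κ (hκ | hκ)
    · obtain ⟨r, hr, h1⟩ := P.cover κ hκ
      exact ⟨r, List.mem_cons_of_mem _ hr, h1⟩
    · exact ⟨r₀, List.mem_cons_self, hcov κ hκ⟩
  · intro _
    refine ⟨r₀, List.mem_cons_self, by simp, c₁, ?_⟩
    intro c hc _
    have hc' : c ∉ A ∪ B ∧ c ∉ Q := by
      rw [← not_or, ← Finset.mem_union]; exact hc
    refine ⟨flipOn_notMem hc'.2, ?_⟩
    show c ∉ A ∪ (B ∪ C)
    rw [← Finset.union_assoc, Finset.mem_union, not_or]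
    exact ⟨hc'.1, fun h => hc'.2 (hCQ h)⟩
  · rw [List.length_cons, P.recs_len]
  · intro r hr
    rcases List.mem_cons.mp hr with rfl | hr
    · rfl
    · exact P.rec_lev r hr
  · intro r hr
    rcases List.mem_cons.mp hr with rfl | hr
    · exact Finset.subset_union_left.trans Finset.subset_union_left
    · exact P.rec_sub r hr
  · intro r hr
    rcases List.mem_cons.mp hr with rfl | hr
    · have h1 : ((A ∪ B) ∪ Q) \ E ⊆ ((A ∪ B) \ E) ∪ Q := by
        intro c hc
        simp only [Finset.mem_sdiff, Finset.mem_union] at hc ⊢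
        tauto
      have h2 := Finset.card_le_card h1
      have h3 := Finset.card_union_le ((A ∪ B) \ E) Q
      show (((A ∪ B) ∪ Q) \ E).card ≤ u + 2 + 6 * u * k
      omega
    · exact P.rec_Z r hr
  · intro r hr
    rcases List.mem_cons.mp hr with rfl | hr
    · exact (forb_card C x').trans hCc
    · exact P.rec_U r hr
  · intro e he
    rcases List.mem_append.mp he with he | he
    · obtain ⟨R, hRQ, h1, h2, h3⟩ := L8 e he
      have h4 := leg_expl (B := C) L3 hRQ hC1 hC2 L5 L7 h2 h3 h1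
      have h5 : (((new ++ l).length : ℕ) : ℝ) = (new.length : ℝ) + l.length := by
        rw [List.length_append]; push_cast; ring
      rw [h5] at h4
      rw [hlen]
      exact h4.right
    · have h4 := P.expl e he
      exact h4.append (leg_start _ _ _ _ _ ⟨c₁, hC1⟩ _ _)
  · exact P.start.append (leg_start _ _ _ _ _ ⟨c₁, hC1⟩ _ _)

/-- `18 h` legs of level `k`. -/
theorem super (ρ : PivotRule n) (v₀ : Vertex n) (E : Finset (Fin n)) (h u k : ℕ)
    (hh : 1 ≤ h) (hu : u = h * (66 * h)) (hE : Eᶜ.card = 6 * h * u) (hk : k + 1 ≤ h)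
    (l : History n) (p : Vertex n) (hl : Hist ρ v₀ l p) (A : Finset (Fin n)) (hEA : E ⊆ A)
    (hA : (A \ E).card + 66 * h ≤ u) (𝓛 : List (Rec n))
    (hlev : ∀ r ∈ 𝓛, r.lev < k) (hZE : ∀ r ∈ 𝓛, (r.Z \ E).card ≤ u + 2 + 6 * u * r.lev)
    (hZ : ∀ r ∈ 𝓛, E ⊆ r.Z) (hU : ∀ r ∈ 𝓛, r.U.card ≤ u)
    (hW : (𝓛.map fun r => (1 / 4 : ℝ) ^ (k - r.lev)).sum ≤ 9 * h) :
    ∃ (new : History n) (x : Vertex n) (B : Finset (Fin n)) (𝒱 : Set (Mark n))
      (𝒦 : Set (Con n)) (𝓝 : List (Rec n)) (α : Rec n → ℕ),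
      Parts ρ v₀ E h u k l p A 𝓛 (18 * h) new x B 𝒱 𝒦 𝓝 α ∧
        ∀ r ∈ 𝓛, 2 ≤ (B ∩ vset r x).card := by
  classical
  have key : ∀ j ≤ 18 * h, ∃ (new : History n) (x : Vertex n) (B : Finset (Fin n))
      (𝒱 : Set (Mark n)) (𝒦 : Set (Con n)) (𝓝 : List (Rec n)) (α : Rec n → ℕ),
      Parts ρ v₀ E h u k l p A 𝓛 j new x B 𝒱 𝒦 𝓝 α := by
    intro j
    induction j with
    | zero =>
      intro _
      exact ⟨_, _, _, _, _, _, _, parts_zero ρ v₀ E h u k l p A 𝓛 hl hlev hW⟩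
    | succ j ih =>
      intro hj
      obtain ⟨new, x, B, 𝒱, 𝒦, 𝓝, α, P⟩ := ih (by omega)
      exact parts_step ρ v₀ E h u k hh hu hE hk l p A hEA hA 𝓛 hlev hZE hU j hj new x B 𝒱 𝒦 𝓝 α P
  obtain ⟨new, x, B, 𝒱, 𝒦, 𝓝, α, P⟩ := key (18 * h) le_rfl
  refine ⟨new, x, B, 𝒱, 𝒦, 𝓝, α, P, ?_⟩
  intro r hr
  by_contra hcon
  have hhit : (B ∩ vset r x).card ≤ 1 := by omega
  have hupos : 1 ≤ u := by
    rw [hu]
    calc 1 ≤ 1 * (66 * 1) := by norm_num
      _ ≤ h * (66 * h) := Nat.mul_le_mul hh (Nat.mul_le_mul_left _ hh)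
  have hkh : 6 * u * k + 6 * u ≤ 6 * h * u := by
    calc 6 * u * k + 6 * u = 6 * u * (k + 1) := by ring
      _ ≤ 6 * u * h := Nat.mul_le_mul_left _ hk
      _ = 6 * h * u := by ring
  have h1 := P.alpha r hr
  have h2 : (dset r p).card ≤ 6 * h * u := by
    rw [← hE]
    apply Finset.card_le_card
    intro c hc
    rw [mem_dset] at hc
    rw [Finset.mem_compl]
    exact fun hcE => hc.1 (hZ r hr hcE)
  set t := k - r.lev with ht
  have ht1 : 1 ≤ t := by have := hlev r hr; omega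
  have h3 : 6 * h * u * (9 * t) ≤ α r + 6 * h * u * 5 := by
    have e1 : 18 * h * (6 * u * t) = 2 * (6 * h * u * (9 * t)) := by ring
    have e2 : 18 * h * (3 * u) = 2 * (6 * h * u * 5) - 6 * h * u := by
      have : 2 * (6 * h * u * 5) = 18 * h * (3 * u) + 6 * h * u := by ring
      omega
    rw [e1] at h1
    have e3 : 2 * (6 * h * u * 5) ≥ 6 * h * u := by nlinarith [Nat.zero_le (6 * h * u)]
    rw [e2] at h1
    omega
  have hM : ((6 * u * k + 2 : ℕ) : ℝ) ≤ ((6 * h * u : ℕ) : ℝ) := by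
    have : 6 * u * k + 2 ≤ 6 * h * u := by omega
    exact_mod_cast this
  have hMpos : (0 : ℝ) < ((6 * u * k + 2 : ℕ) : ℝ) := by positivity
  have ht1' : (1 : ℝ) ≤ t := by exact_mod_cast ht1
  have h4 : 9 * (t : ℝ) - 5 ≤ (α r : ℝ) / ((6 * u * k + 2 : ℕ) : ℝ) := by
    rw [le_div_iff₀ hMpos]
    have h5 : ((6 * h * u : ℕ) : ℝ) * (9 * t) ≤ α r + ((6 * h * u : ℕ) : ℝ) * 5 := by
      exact_mod_cast h3
    calc (9 * (t : ℝ) - 5) * ((6 * u * k + 2 : ℕ) : ℝ)
        ≤ (9 * (t : ℝ) - 5) * ((6 * h * u : ℕ) : ℝ) :=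
          mul_le_mul_of_nonneg_left hM (by linarith)
      _ ≤ α r := by linarith
  have h5 := P.small r hr
  have h6 : (1 : ℝ) ≤ term u k B x α r := by
    have h7 : ((1 : ℝ) / 4) ^ 1 ≤ (1 / 4) ^ (B ∩ vset r x).card :=
      pow_le_pow_of_le_one (by norm_num) (by norm_num) hhit
    have h8 := exp_bound t ht1
    have h9 : Real.exp (3 / 4 * (9 * (t : ℝ) - 5)) ≤
        Real.exp (3 / 4 * ((α r : ℝ) / ((6 * u * k + 2 : ℕ) : ℝ))) :=
      Real.exp_le_exp.mpr (by linarith)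
    calc (1 : ℝ) = (1 / 4) ^ t * (1 / 4) ^ 1 * 4 ^ (t + 1) := by
          rw [← pow_add, ← mul_pow]; norm_num
      _ ≤ (1 / 4) ^ t * (1 / 4) ^ (B ∩ vset r x).card *
          Real.exp (3 / 4 * ((α r : ℝ) / ((6 * u * k + 2 : ℕ) : ℝ))) := by
          apply mul_le_mul _ (h8.trans h9) (by positivity) (by positivity)
          exact mul_le_mul_of_nonneg_left h7 (by positivity)
      _ = term u k B x α r := rfl
  linarith

end Pool.Agent.MP4d246d.Gain
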